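import Pool.Agent.Q239.PC.Stm

set_option autoImplicit false

/-! Project PC: assembly. -/

namespace Pool.Agent.Q239.PC

open SimpleGraph

theorem kconn_mono {k k' : ℕ} (h : k ≤ k') {V : Type} [Fintype V] {G : SimpleGraph V}
    (hG : KConn k' G) : KConn k G := by
  rcases Nat.eq_zero_or_pos k with h0 | h0
  · exact Or.inl h0
  · rcases hG with h1 | ⟨h1, h2⟩
    · omega
    · exact Or.inr ⟨by omega, fun X hX => h2 X (by omega)⟩

theorem mono {d k k' : ℕ} (h : k ≤ k') : S d k ⊆ S d k' :=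
  fun _ hl V _ G hr hk => hl V G hr (kconn_mono h hk)

theorem bad_not (hS : S_SEP) {d k l : ℕ} (hb : Bad d k l) : l ∉ S d k := by
  intro hl
  obtain ⟨V, _, G, hr, hk, hs⟩ := hb
  obtain ⟨u, v, p, hp, hpl, hc⟩ := hS V G l hs
  exact hc (hl V G hr hk u v p hp hpl)

/-- all separating examples for `k ≤ d`, `3 ≤ d` -/
theorem not_mem (hSEP : S_SEP) (hTOR : S_TOR) (hTOC : S_TOC) (hTP1 : S_TP1) (hTP2 : S_TP2)
    (hTWR : S_TWR) (hTWC : S_TWC) (hTWP : S_TWP) (hFOR : S_FOR) (hFOC : S_FOC) (hTRR : S_TRR)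
    (hTRC : S_TRC) (hBF : S_BF) (hEDR : S_EDR) (hEDC : S_EDC) (d k l : ℕ) (hd : 3 ≤ d)
    (hk : 2 ≤ k) (hkd : k ≤ d) (hl : k < l) (h33 : ¬ (d = 3 ∧ k = 3 ∧ l = 4)) : l ∉ S d k := by
  -- enough: some `k'` with `k ≤ k' ≤ d` and `l ∉ S d k'`
  have key : ∀ k', k ≤ k' → Bad d k' l → l ∉ S d k := fun k' h hb hl' =>
    bad_not hSEP hb (mono h hl')
  rcases le_or_gt (d + 2) l with h1 | h1
  · obtain ⟨e, rfl⟩ : ∃ e, d = e + 3 := ⟨d - 3, by omega⟩
    rcases eq_or_lt_of_le h1 with h2 | h2
    · have h3 : l = e + 5 := by omega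
      subst h3
      exact key (e + 3) hkd ⟨_, _, tor e 0, hTOR e 0, hTOC e 0, hTP1 e⟩
    · obtain ⟨t, rfl⟩ : ∃ t, l = e + t + 6 := ⟨l - e - 6, by omega⟩
      exact key (e + 3) hkd ⟨_, _, tor e (t + 1), hTOR e _, hTOC e _, hTP2 e t⟩
  · obtain ⟨k', rfl⟩ : ∃ k', l = k' + 1 := ⟨l - 1, by omega⟩
    rcases le_or_gt 5 k' with h5 | h5
    · refine key k' (by omega) ⟨_, _, two k' (d + 1), ?_, hTWC k' (d + 1) h5 (by omega),
        hTWP k' (d + 1) h5 (by omega)⟩
      have := hTWR k' (d + 1) h5 (by omega)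
      simpa using this
    · have h6 : k' = 2 ∨ k' = 3 ∨ k' = 4 := by omega
      rcases h6 with rfl | rfl | rfl
      · obtain ⟨e, rfl⟩ : ∃ e, d = e + 3 := ⟨d - 3, by omega⟩
        exact key 2 (by omega) ⟨_, _, edg e, (hEDR e).1, hEDC e, (hEDR e).2.1⟩
      · -- `l = 4`
        rcases Nat.lt_or_ge 3 d with hd3 | hd3
        · rcases Nat.even_or_odd d with he | ho
          · rcases Nat.lt_or_ge 4 d with hd4 | hd4
            · obtain ⟨e, rfl⟩ : ∃ e, d = 2 * e + 6 := by
                obtain ⟨s, hs⟩ := he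
                exact ⟨s - 3, by omega⟩
              exact key 3 (by omega) ⟨_, _, tre (2 * e + 8), (hTRR e).2.2.1, (hTRC e).2,
                (hTRR e).2.2.2⟩
            · have : d = 4 := by omega
              subst this
              exact key 3 (by omega) hBF
          · obtain ⟨e, rfl⟩ : ∃ e, d = 2 * e + 5 := by
              obtain ⟨s, hs⟩ := ho
              exact ⟨s - 2, by omega⟩
            exact key 3 (by omega) ⟨_, _, tro (2 * e + 7), (hTRR e).1, (hTRC e).1,
              (hTRR e).2.1⟩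
        · have hd' : d = 3 := by omega
          subst hd'
          have hk2 : k = 2 := by
            by_contra hne
            exact h33 ⟨rfl, by omega, rfl⟩
          exact key 2 (by omega) ⟨_, _, edg 0, (hEDR 0).1, hEDC 0, (hEDR 0).2.2⟩
      · -- `l = 5`, `4 ≤ d`
        refine key 4 (by omega) ⟨_, _, fou (d + 1), ?_, hFOC (d + 1) (by omega),
          (hFOR (d + 1) (by omega)).2⟩
        have := (hFOR (d + 1) (by omega)).1
        simpa using this

/-- the answer -/
theorem main (hSEP : S_SEP) (hP0 : S_P0) (hP1 : S_P1) (hP2 : S_P2) (hP3 : S_P3)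
    (hP4 : S_P4) (hDEG : S_DEG) (hTOR : S_TOR) (hTOC : S_TOC) (hTP1 : S_TP1) (hTP2 : S_TP2)
    (hTWR : S_TWR) (hTWC : S_TWC) (hTWP : S_TWP) (hFOR : S_FOR) (hFOC : S_FOC) (hTRR : S_TRR)
    (hTRC : S_TRC) (hBF : S_BF) (hEDR : S_EDR) (hEDC : S_EDC) (hEVN : S_EVN) (hODG : S_ODG)
    (hODC : S_ODC) (d k : ℕ) (hkd : k ≤ d) :
    S d k = if d = 0 then {l | 1 ≤ l} else if d = 1 then {l | 2 ≤ l} else if d = 2 then Set.univ
      else if k ≤ 1 then (if Even d then {l | l ≤ 1} else ∅)
      else if d = 3 ∧ k = 3 then {l | l ≤ 4} else {l | l ≤ k} := by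
  have hnm := not_mem hSEP hTOR hTOC hTP1 hTP2 hTWR hTWC hTWP hFOR hFOC hTRR hTRC hBF hEDR hEDC
  split_ifs with h0 h1 h2 hk1 hev h33
  · subst h0
    have : k = 0 := by omega
    subst this
    exact hDEG.1
  · subst h1
    have : k = 0 ∨ k = 1 := by omega
    rcases this with rfl | rfl
    · exact hDEG.2.1
    · exact hDEG.2.2
  · subst h2
    ext l
    simp only [Set.mem_univ, iff_true]
    intro V _ G hr _ u v p hp _
    exact hP4 V G hr u v p hp
  · -- `k ≤ 1`, `d` even
    ext l
    simp only [Set.mem_ofPred_eq]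
    constructor
    · intro hl
      by_contra hlt
      rcases Nat.lt_or_ge 2 l with h3 | h3
      · exact hnm d 2 l (by omega) le_rfl (by omega) h3 (by omega) (mono (by omega) hl)
      · have : l = 2 := by omega
        subst this
        obtain ⟨e, rfl⟩ : ∃ e, d = 2 * e + 4 := by
          obtain ⟨s, hs⟩ := hev
          exact ⟨s - 2, by omega⟩
        exact bad_not hSEP ⟨_, _, evn e, (hEVN e).1, (hEVN e).2.1, (hEVN e).2.2⟩
          (mono hk1 hl)
    · intro hl V _ G hr _ u v p hp hpl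
      exact hP3 V G d hev (by omega) hr u v p hp (by omega)
  · -- `k ≤ 1`, `d` odd
    have hodd : Odd d := Nat.not_even_iff_odd.1 hev
    ext l
    simp only [Set.mem_empty_iff_false, iff_false]
    intro hl
    rcases Nat.lt_or_ge 2 l with h3 | h3
    · exact hnm d 2 l (by omega) le_rfl (by omega) h3 (by omega) (mono (by omega) hl)
    · obtain ⟨e, rfl⟩ : ∃ e, d = 2 * e + 3 := by
        obtain ⟨s, hs⟩ := hodd
        exact ⟨s - 1, by omega⟩
      have hl1 := mono hk1 hl
      have key : ∀ (u v : Unit ⊕ (Fin (2 * e + 3) × Fin (2 * e + 5))) (p : (odg e).Walk u v),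
          p.IsPath → p.length = l → Sum.inl () ∈ p.support → False := by
        intro u v p hp hpl hmem
        obtain ⟨w, c, hc, hle⟩ := hl1 _ (odg e) (hODG e).1 (hODG e).2 u v p hp hpl
        refine hODC e w c hc ?_
        have h4 : Sum.inl () ∈ p.toSubgraph.verts := (Walk.mem_verts_toSubgraph p).2 hmem
        exact (Walk.mem_verts_toSubgraph c).1 (hle.1 h4)
      have hadj : ∀ i : Fin (2 * e + 3), (odg e).Adj (Sum.inr (i, 0)) (Sum.inl ()) := by
        intro i
        rw [odg, SimpleGraph.fromRel_adj]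
        refine ⟨by simp, Or.inr ?_⟩
        simp
      have h5 : l = 0 ∨ l = 1 ∨ l = 2 := by omega
      rcases h5 with rfl | rfl | rfl
      · exact key _ _ (Walk.nil : (odg e).Walk (Sum.inl ()) (Sum.inl ())) Walk.IsPath.nil rfl
          (by simp)
      · refine key _ _ (Walk.cons (hadj 0) Walk.nil) ?_ rfl (by simp)
        rw [Walk.cons_isPath_iff]
        exact ⟨Walk.IsPath.nil, by simp⟩
      · refine key _ _ (Walk.cons (hadj 0) (Walk.cons (hadj 1).symm Walk.nil)) ?_ rfl (by simp)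
        rw [Walk.cons_isPath_iff, Walk.cons_isPath_iff]
        refine ⟨⟨Walk.IsPath.nil, by simp⟩, ?_⟩
        have : (0 : Fin (2 * e + 3)) ≠ 1 := by
          intro h
          have := congrArg Fin.val h
          simp at this
        simp [this]
  · -- `d = k = 3`
    obtain ⟨rfl, rfl⟩ := h33
    ext l
    simp only [Set.mem_ofPred_eq]
    constructor
    · intro hl
      by_contra hlt
      exact hnm 3 3 l le_rfl (by omega) le_rfl (by omega) (by omega) hl
    · intro hl V _ G hr hk u v p hp hpl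
      rcases Nat.lt_or_ge l 2 with h | h
      · exact hP0 V G (kconn_mono (by omega) hk) u v p hp (by omega)
      · rcases Nat.lt_or_ge l 4 with h' | h'
        · exact hP1 V G 3 hk u v p hp (by omega) (by omega)
        · exact hP2 V G hr hk u v p hp (by omega)
  · ext l
    simp only [Set.mem_ofPred_eq]
    constructor
    · intro hl
      by_contra hlt
      refine hnm d k l (by omega) (by omega) hkd (by omega) ?_ hl
      rintro ⟨hd, hk, _⟩
      exact h33 ⟨hd, hk⟩
    · intro hl V _ G hr hk u v p hp hpl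
      rcases Nat.lt_or_ge l 2 with h | h
      · exact hP0 V G (kconn_mono (by omega) hk) u v p hp (by omega)
      · exact hP1 V G k hk u v p hp (by omega) (by omega)

end Pool.Agent.Q239.PC
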