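import Pool.Agent.Q239.PC.RX

set_option autoImplicit false

namespace Pool.Agent.Q239.PC

open SimpleGraph Finset

/-- adjacency of the graph on 11 vertices, one direction -/
def bE (a b : ℕ) : Bool :=
  [(0, 1), (1, 2), (3, 0), (4, 0), (5, 1), (6, 2), (7, 0), (8, 1), (9, 2), (10, 2)].contains (a, b)
    || (decide (3 ≤ a) && decide (a ≤ 6) && decide (3 ≤ b) && decide (b ≤ 6))
    || (decide (7 ≤ a) && decide (7 ≤ b))

/-- the graph on 11 vertices -/
def bG : SimpleGraph (Fin 11) := SimpleGraph.fromRel fun a b => bE a b = true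

theorem bG_adj (a b : Fin 11) : bG.Adj a b ↔ (a ≠ b ∧ (bE a b = true ∨ bE b a = true)) := by
  rw [bG, fromRel_adj]

theorem bG_reg : Reg 4 bG := by
  intro v
  have e1 : bG.neighborSet v =
      ((univ.filter fun w => v ≠ w ∧ (bE v w = true ∨ bE w v = true) : Finset (Fin 11)) :
        Set (Fin 11)) := by
    ext w
    simp only [mem_neighborSet, bG_adj, coe_filter, mem_univ, true_and, Set.mem_ofPred_eq]
  rw [e1, Set.ncard_coe_finset]
  clear e1
  revert v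
  decide

theorem bG_conn : KConn 3 bG := by
  refine Or.inr ⟨by simp, fun X hX => ?_⟩
  have h3 : ∀ a b c : Fin 11, a ≠ b → a ≠ c → b ≠ c → a ∈ X → b ∈ X → c ∈ X → False := by
    intro a b c hab hac hbc ha hb hc
    have h1 : ({a, b, c} : Set (Fin 11)).ncard = 3 := Set.ncard_eq_three.2
      ⟨a, b, c, hab, hac, hbc, rfl⟩
    have h2 : ({a, b, c} : Set (Fin 11)).ncard ≤ X.ncard := by
      refine Set.ncard_le_ncard ?_ (Set.toFinite _)
      rintro x (rfl | rfl | rfl)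
      · exact ha
      · exact hb
      · exact hc
    omega
  -- adjacent or equal vertices outside `X` are joined
  have hj : ∀ a b : Fin 11, (a = b ∨ (bE a b = true ∨ bE b a = true)) → a ∉ X → b ∉ X →
      RX bG X a b := by
    intro a b hab ha hb
    by_cases h : a = b
    · subst h
      exact RX.rfl
    · exact RX.of_adj ((bG_adj a b).2 ⟨h, hab.resolve_left h⟩) ha hb
  have hP : ∀ a b : Fin 11, (3 ≤ (a : ℕ) ∧ (a : ℕ) ≤ 6) → (3 ≤ (b : ℕ) ∧ (b : ℕ) ≤ 6) →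
      (a = b ∨ (bE a b = true ∨ bE b a = true)) := by decide
  have hQ : ∀ a b : Fin 11, 7 ≤ (a : ℕ) → 7 ≤ (b : ℕ) →
      (a = b ∨ (bE a b = true ∨ bE b a = true)) := by decide
  -- a root in the first block
  obtain ⟨r, hr1, hr2, hr⟩ : ∃ r : Fin 11, 3 ≤ (r : ℕ) ∧ (r : ℕ) ≤ 6 ∧ r ∉ X := by
    by_contra hc
    push Not at hc
    exact h3 3 4 5 (by decide) (by decide) (by decide) (hc 3 (by decide) (by decide))
      (hc 4 (by decide) (by decide)) (hc 5 (by decide) (by decide))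
  have rP : ∀ y : Fin 11, 3 ≤ (y : ℕ) → (y : ℕ) ≤ 6 → y ∉ X → RX bG X r y :=
    fun y h1 h2 hy => hj r y (hP r y ⟨hr1, hr2⟩ ⟨h1, h2⟩) hr hy
  -- the second block is reached
  have route : ∀ p m q : Fin 11, p ∉ X → m ∉ X → q ∉ X → 3 ≤ (p : ℕ) → (p : ℕ) ≤ 6 →
      bG.Adj p m → bG.Adj m q → 7 ≤ (q : ℕ) → ∀ y : Fin 11, 7 ≤ (y : ℕ) → y ∉ X →
      RX bG X r y := by
    intro p m q hp hm hq h1 h2 h4 h5 h6 y hy hyX
    exact (rP p h1 h2 hp).trans ((RX.of_adj h4 hp hm).trans ((RX.of_adj h5 hm hq).trans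
      (hj q y (hQ q y h6 hy) hq hyX)))
  have rQ : ∀ y : Fin 11, 7 ≤ (y : ℕ) → y ∉ X → RX bG X r y := by
    by_cases a : (3 : Fin 11) ∉ X ∧ (0 : Fin 11) ∉ X ∧ (7 : Fin 11) ∉ X
    · exact route 3 0 7 a.1 a.2.1 a.2.2 (by decide) (by decide)
        ((bG_adj _ _).2 (by decide)) ((bG_adj _ _).2 (by decide)) (by decide)
    by_cases b : (5 : Fin 11) ∉ X ∧ (1 : Fin 11) ∉ X ∧ (8 : Fin 11) ∉ X
    · exact route 5 1 8 b.1 b.2.1 b.2.2 (by decide) (by decide)
        ((bG_adj _ _).2 (by decide)) ((bG_adj _ _).2 (by decide)) (by decide)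
    by_cases c : (6 : Fin 11) ∉ X ∧ (2 : Fin 11) ∉ X ∧ (9 : Fin 11) ∉ X
    · exact route 6 2 9 c.1 c.2.1 c.2.2 (by decide) (by decide)
        ((bG_adj _ _).2 (by decide)) ((bG_adj _ _).2 (by decide)) (by decide)
    exfalso
    obtain ⟨x, hx, hx'⟩ : ∃ x : Fin 11, (x = 3 ∨ x = 0 ∨ x = 7) ∧ x ∈ X := by
      by_contra hc
      push Not at hc
      exact a ⟨hc 3 (Or.inl rfl), hc 0 (Or.inr (Or.inl rfl)), hc 7 (Or.inr (Or.inr rfl))⟩
    obtain ⟨y, hy, hy'⟩ : ∃ y : Fin 11, (y = 5 ∨ y = 1 ∨ y = 8) ∧ y ∈ X := by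
      by_contra hc
      push Not at hc
      exact b ⟨hc 5 (Or.inl rfl), hc 1 (Or.inr (Or.inl rfl)), hc 8 (Or.inr (Or.inr rfl))⟩
    obtain ⟨z, hz, hz'⟩ : ∃ z : Fin 11, (z = 6 ∨ z = 2 ∨ z = 9) ∧ z ∈ X := by
      by_contra hc
      push Not at hc
      exact c ⟨hc 6 (Or.inl rfl), hc 2 (Or.inr (Or.inl rfl)), hc 9 (Or.inr (Or.inr rfl))⟩
    refine h3 x y z ?_ ?_ ?_ hx' hy' hz'
    · rcases hx with rfl | rfl | rfl <;> rcases hy with rfl | rfl | rfl <;> decide
    · rcases hx with rfl | rfl | rfl <;> rcases hz with rfl | rfl | rfl <;> decide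
    · rcases hy with rfl | rfl | rfl <;> rcases hz with rfl | rfl | rfl <;> decide
  have rPQ : ∀ y : Fin 11, 3 ≤ (y : ℕ) → y ∉ X → RX bG X r y := by
    intro y h1 hy
    rcases le_or_gt (y : ℕ) 6 with h | h
    · exact rP y h1 h hy
    · exact rQ y h hy
  -- a vertex with a remaining neighbour in the blocks is reached
  have rN : ∀ y m : Fin 11, m ∉ X → 3 ≤ (y : ℕ) → bG.Adj y m → y ∉ X → RX bG X r m :=
    fun y m hm h1 h2 hy => (rPQ y h1 hy).trans (RX.of_adj h2 hy hm)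
  have r0 : (0 : Fin 11) ∉ X → RX bG X r 0 := by
    intro h0
    by_cases a : (3 : Fin 11) ∈ X
    · by_cases b : (4 : Fin 11) ∈ X
      · by_cases c : (7 : Fin 11) ∈ X
        · exact (h3 3 4 7 (by decide) (by decide) (by decide) a b c).elim
        · exact rN 7 0 h0 (by decide) ((bG_adj _ _).2 (by decide)) c
      · exact rN 4 0 h0 (by decide) ((bG_adj _ _).2 (by decide)) b
    · exact rN 3 0 h0 (by decide) ((bG_adj _ _).2 (by decide)) a
  have r2 : (2 : Fin 11) ∉ X → RX bG X r 2 := by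
    intro h0
    by_cases a : (6 : Fin 11) ∈ X
    · by_cases b : (9 : Fin 11) ∈ X
      · by_cases c : (10 : Fin 11) ∈ X
        · exact (h3 6 9 10 (by decide) (by decide) (by decide) a b c).elim
        · exact rN 10 2 h0 (by decide) ((bG_adj _ _).2 (by decide)) c
      · exact rN 9 2 h0 (by decide) ((bG_adj _ _).2 (by decide)) b
    · exact rN 6 2 h0 (by decide) ((bG_adj _ _).2 (by decide)) a
  have r1 : (1 : Fin 11) ∉ X → RX bG X r 1 := by
    intro h0
    by_cases a : (5 : Fin 11) ∈ X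
    · by_cases b : (8 : Fin 11) ∈ X
      · by_cases c : (0 : Fin 11) ∈ X
        · exact (h3 5 8 0 (by decide) (by decide) (by decide) a b c).elim
        · exact (r0 c).trans (RX.of_adj ((bG_adj _ _).2 (by decide)) c h0)
      · exact rN 8 1 h0 (by decide) ((bG_adj _ _).2 (by decide)) b
    · exact rN 5 1 h0 (by decide) ((bG_adj _ _).2 (by decide)) a
  refine connected_of r hr fun y hy => ?_
  have hy2 := y.2
  have hc : (y : ℕ) = 0 ∨ (y : ℕ) = 1 ∨ (y : ℕ) = 2 ∨ 3 ≤ (y : ℕ) := by omega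
  rcases hc with h | h | h | h
  · obtain rfl : y = 0 := Fin.ext h
    exact r0 hy
  · obtain rfl : y = 1 := Fin.ext h
    exact r1 hy
  · obtain rfl : y = 2 := Fin.ext h
    exact r2 hy
  · exact rPQ y h hy

theorem bf : S_BF := by
  refine ⟨Fin 11, inferInstance, bG, bG_reg, bG_conn, by omega, ?_⟩
  obtain ⟨f, f0, f1, f2, f3, f4⟩ : ∃ f : ℕ → Fin 11, f 0 = 3 ∧ f 1 = 0 ∧ f 2 = 1 ∧ f 3 = 2 ∧
      f 4 = 9 :=
    ⟨fun i => if i = 0 then 3 else if i = 1 then 0 else if i = 2 then 1 else if i = 3 then 2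
      else 9, rfl, rfl, rfl, rfl, rfl⟩
  refine ⟨f, {x | 3 ≤ (x : ℕ) ∧ (x : ℕ) ≤ 6}, ?_, ?_, ?_, ?_, ?_⟩
  · intro i j hi hj h
    interval_cases i <;> interval_cases j <;> simp_all
  · intro i hi
    rw [bG_adj]
    interval_cases i
    · rw [f0, f1]
      decide
    · rw [f1, f2]
      decide
    · rw [f2, f3]
      decide
    · rw [f3, f4]
      decide
  · rw [f0]
    constructor <;> decide
  · rw [f4]
    rintro ⟨-, h⟩
    revert h
    decide
  · intro a b ha hb ha' hb' hab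
    have hk : ∀ a b : Fin 11, (3 ≤ (a : ℕ) ∧ (a : ℕ) ≤ 6) → ¬ (3 ≤ (b : ℕ) ∧ (b : ℕ) ≤ 6) →
        (bE a b = true ∨ bE b a = true) → (b = 0 ∨ b = 1 ∨ b = 2) := by decide
    rcases hk a b ha hb ((bG_adj a b).1 hab).2 with rfl | rfl | rfl
    · exact hb' 1 (by omega) (by omega) f1
    · exact hb' 2 (by omega) (by omega) f2
    · exact hb' 3 (by omega) (by omega) f3

end Pool.Agent.Q239.PC
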