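import Pool.Agent.Q239.PC.Stm

set_option autoImplicit false

namespace Pool.Agent.Q239.PC

open SimpleGraph

theorem cl : S_CL := by
  intro V G u v p hp hl q hq hpq
  refine ⟨u, p.append q, hp.isCycle_append hq ?_ (Or.inl (by omega)), ?_⟩
  · intro x hx hx'
    have h1 : x ∈ p.support := List.mem_of_mem_tail hx
    have h2 : x ∈ q.support := List.mem_of_mem_tail hx'
    rcases hpq x h2 h1 with h | h
    · subst h
      have := hp.support_nodup
      rw [← Walk.cons_tail_support] at this
      exact (List.nodup_cons.1 this).1 hx
    · subst h
      have := hq.support_nodup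
      rw [← Walk.cons_tail_support] at this
      exact (List.nodup_cons.1 this).1 hx'
  · rw [Walk.toSubgraph_append]
    exact le_sup_left

end Pool.Agent.Q239.PC
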