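import Pool.Agent.Q239.PC.P

set_option autoImplicit false

namespace Pool.Agent.Q239.PC

open SimpleGraph

/-- the empty graph on one vertex -/
theorem not_mem_zero : 0 ∉ S 0 0 := by
  intro h
  have h1 : Reg 0 (⊥ : SimpleGraph Unit) := by
    intro v
    have : (⊥ : SimpleGraph Unit).neighborSet v = ∅ := by
      ext
      simp
    rw [this, Set.ncard_empty]
  obtain ⟨w, c, hc, _⟩ := h Unit ⊥ h1 (Or.inl rfl) () () Walk.nil Walk.IsPath.nil rfl
  cases c with
  | nil => exact Walk.not_isCycle_nil hc
  | cons h' _ => exact h'.elim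

/-- a path with at least two edges has an inner vertex of degree at least two -/
theorem two_le_of_path {V : Type} [Fintype V] {G : SimpleGraph V} {d : ℕ} (hr : Reg d G) {u v : V}
    {p : G.Walk u v} (hp : p.IsPath) (hl : 2 ≤ p.length) : 2 ≤ d := by
  have h1 := hp.ncard_neighborSet_toSubgraph_internal_eq_two (i := 1) (by omega) (by omega)
  have h2 := Set.ncard_le_ncard (p.toSubgraph.neighborSet_subset (p.getVert 1)) (Set.toFinite _)
  rw [h1, hr] at h2
  exact h2

theorem not_cycle_bool {w : Bool} (c : (⊤ : SimpleGraph Bool).Walk w w) : ¬ c.IsCycle := by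
  intro hc
  have h1 := hc.three_le_length
  have h2 := hc.isPath_tail.length_lt
  rw [Fintype.card_bool] at h2
  have h3 : c.tail.length + 1 = c.length := Walk.length_tail_add_one hc.not_nil
  omega

theorem reg_bool : Reg 1 (⊤ : SimpleGraph Bool) := by
  intro v
  have : (⊤ : SimpleGraph Bool).neighborSet v = {!v} := by
    ext x
    cases x <;> cases v <;> simp
  rw [this, Set.ncard_singleton]

theorem kconn_bool : KConn 1 (⊤ : SimpleGraph Bool) := by
  refine Or.inr ⟨by simp, fun X hX => ?_⟩
  have : X = ∅ := by
    rw [← Set.ncard_eq_zero (Set.toFinite _)]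
    omega
  subst this
  refine (connected_iff_exists_forall_reachable _).2 ⟨⟨true, by simp⟩, fun w => ?_⟩
  by_cases h : w = ⟨true, by simp⟩
  · rw [h]
  · refine Adj.reachable ?_
    rw [comap_adj, top_adj]
    intro h'
    exact h (Subtype.ext h'.symm)

theorem deg : S_DEG := by
  have key : ∀ k, k ≤ 1 → S 1 k = {l | 2 ≤ l} := by
    intro k hk
    ext l
    simp only [Set.mem_ofPred_eq]
    constructor
    · intro h
      by_contra hlt
      have hk' : KConn k (⊤ : SimpleGraph Bool) := by
        rcases Nat.eq_zero_or_pos k with h0 | h0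
        · exact Or.inl h0
        · obtain rfl : k = 1 := by omega
          exact kconn_bool
      have hl : l = 0 ∨ l = 1 := by omega
      rcases hl with rfl | rfl
      · obtain ⟨w, c, hc, _⟩ := h Bool ⊤ reg_bool hk' true true Walk.nil Walk.IsPath.nil rfl
        exact not_cycle_bool c hc
      · have hadj : (⊤ : SimpleGraph Bool).Adj true false := by simp
        obtain ⟨w, c, hc, _⟩ := h Bool ⊤ reg_bool hk' true false (Walk.cons hadj Walk.nil)
          (Walk.IsPath.of_adj hadj) rfl
        exact not_cycle_bool c hc
    · intro hl V _ G hr _ u v p hp hpl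
      have := two_le_of_path hr hp (by omega)
      omega
  refine ⟨?_, key 0 (by omega), key 1 le_rfl⟩
  ext l
  simp only [Set.mem_ofPred_eq]
  constructor
  · intro h
    by_contra hlt
    obtain rfl : l = 0 := by omega
    exact not_mem_zero h
  · intro hl V _ G hr _ u v p hp hpl
    cases p with
    | nil => simp at hpl; omega
    | @cons _ w _ hadj q =>
      have h1 : (G.neighborSet u).Nonempty := ⟨w, hadj⟩
      rw [← Set.ncard_pos (Set.toFinite _), hr u] at h1
      omega

end Pool.Agent.Q239.PC
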