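import Mathlib

set_option autoImplicit false

/-!
Project PC (MP_520f61_co): paths lying on cycles in regular `k`-connected graphs.
Definitions.
-/

namespace Pool.Agent.Q239.PC

/-- `G` is `k`-connected: every graph is `0`-connected; for `k ≥ 1` it has more than `k` vertices
and stays connected after deleting any set of fewer than `k` vertices. -/
def KConn (k : ℕ) {V : Type} [Fintype V] (G : SimpleGraph V) : Prop :=
  k = 0 ∨ (k < Fintype.card V ∧ ∀ X : Set V, X.ncard < k → (G.induce Xᶜ).Connected)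

/-- every vertex has degree `d` -/
def Reg (d : ℕ) {V : Type} (G : SimpleGraph V) : Prop :=
  ∀ v : V, (G.neighborSet v).ncard = d

/-- the path `p` closes to a cycle: some cycle of `G` contains `p` as a subgraph -/
def Closes {V : Type} (G : SimpleGraph V) {u v : V} (p : G.Walk u v) : Prop :=
  ∃ (w : V) (c : G.Walk w w), c.IsCycle ∧ p.toSubgraph ≤ c.toSubgraph

/-- the set `S(d, k)` of all `l` such that in every finite `d`-regular `k`-connected graph every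
path with exactly `l` edges closes to a cycle -/
def S (d k : ℕ) : Set ℕ :=
  {l | ∀ (V : Type) [Fintype V] (G : SimpleGraph V), Reg d G → KConn k G →
    ∀ (u v : V) (p : G.Walk u v), p.IsPath → p.length = l → Closes G p}

/-- the vertices `f 0, ..., f l` form a path (with `l ≥ 2` edges) whose inner vertices separate
its two ends -/
def Sep {V : Type} (G : SimpleGraph V) (l : ℕ) : Prop :=
  2 ≤ l ∧ ∃ (f : ℕ → V) (A : Set V), (∀ i j, i ≤ l → j ≤ l → f i = f j → i = j) ∧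
    (∀ i, i < l → G.Adj (f i) (f (i + 1))) ∧ f 0 ∈ A ∧ f l ∉ A ∧
    ∀ a b, a ∈ A → b ∉ A → (∀ i, 0 < i → i < l → f i ≠ a) → (∀ i, 0 < i → i < l → f i ≠ b) →
      ¬ G.Adj a b

/-- there is a `d`-regular `k`-connected graph with a separating path of length `l` -/
def Bad (d k l : ℕ) : Prop :=
  ∃ (V : Type) (_ : Fintype V) (G : SimpleGraph V), Reg d G ∧ KConn k G ∧ Sep G l

/-- Cartesian product of the cycle of length `m + 3` and the complete graph on `e + 2` vertices;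
it is `(e + 3)`-regular -/
def tor (e m : ℕ) : SimpleGraph (ZMod (m + 3) × Fin (e + 2)) :=
  SimpleGraph.fromRel fun a b => a.1 = b.1 ∨ (a.2 = b.2 ∧ b.1 = a.1 + 1)

/-- `i, j < k` are neighbours on the cycle `0, 1, ..., k - 1` -/
def cyc (k i j : ℕ) : Prop :=
  i < k ∧ j < k ∧ (j = i + 1 ∨ i = j + 1 ∨ (i = 0 ∧ j + 1 = k) ∨ (j = 0 ∧ i + 1 = k))

/-- `i, j < k` and `j = i` or `j = i + 1` cyclically -/
def crs (k i j : ℕ) : Prop :=
  i < k ∧ j < k ∧ (j = i ∨ j = i + 1 ∨ (j = 0 ∧ i + 1 = k))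

/-- two copies of the complete graph on `n` vertices, in each of them the edges of the cycle
`0, ..., k - 1` are deleted, with cross edges from `i` to `i` and to `i + 1` (cyclically modulo
`k`), `i < k` -/
def two (k n : ℕ) : SimpleGraph (Fin n × Bool) :=
  SimpleGraph.fromRel fun a b => (a.2 = b.2 ∧ ¬ cyc k a.1 b.1) ∨
    (a.2 = false ∧ b.2 = true ∧ crs k a.1 b.1)

/-- two copies of the complete graph on `n` vertices without the two edges `01` and `23`, and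
cross edges from `i` to `i`, `i < 4` -/
def fou (n : ℕ) : SimpleGraph (Fin n × Bool) :=
  SimpleGraph.fromRel fun a b => (a.2 = b.2 ∧
      ¬ (((a.1 : ℕ) = 0 ∧ (b.1 : ℕ) = 1) ∨ ((a.1 : ℕ) = 1 ∧ (b.1 : ℕ) = 0) ∨
        ((a.1 : ℕ) = 2 ∧ (b.1 : ℕ) = 3) ∨ ((a.1 : ℕ) = 3 ∧ (b.1 : ℕ) = 2))) ∨
    (a.2 ≠ b.2 ∧ a.1 = b.1 ∧ (a.1 : ℕ) < 4)

/-- the deleted edges, odd degree -/
def fo (i j : ℕ) : Prop :=
  (i = 0 ∧ j = 2) ∨ (i = 0 ∧ j = 3) ∨ (i = 1 ∧ j = 4) ∨ (i = 1 ∧ j = 5) ∨ (i = 2 ∧ j = 6) ∨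
    (7 ≤ i ∧ i % 2 = 1 ∧ j = i + 1)

/-- the deleted edges, even degree -/
def fe (i j : ℕ) : Prop :=
  (i = 0 ∧ j = 2) ∨ (i = 0 ∧ j = 3) ∨ (i = 1 ∧ j = 4) ∨ (i = 1 ∧ j = 5) ∨ (i = 2 ∧ j = 6) ∨
    (i = 2 ∧ j = 7) ∨ (8 ≤ i ∧ i % 2 = 0 ∧ j = i + 1)

/-- two copies of the complete graph on `n` vertices without the edges `fo`, cross edges from `i`
to `i`, `i < 3` -/
def tro (n : ℕ) : SimpleGraph (Fin n × Bool) :=
  SimpleGraph.fromRel fun a b => (a.2 = b.2 ∧ ¬ (fo a.1 b.1 ∨ fo b.1 a.1)) ∨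
    (a.2 ≠ b.2 ∧ a.1 = b.1 ∧ (a.1 : ℕ) < 3)

/-- two copies of the complete graph on `n` vertices without the edges `fe`, cross edges `00`,
`12`, `21`, `22` -/
def tre (n : ℕ) : SimpleGraph (Fin n × Bool) :=
  SimpleGraph.fromRel fun a b => (a.2 = b.2 ∧ ¬ (fe a.1 b.1 ∨ fe b.1 a.1)) ∨
    (a.2 ≠ b.2 ∧ (((a.1 : ℕ) = 0 ∧ (b.1 : ℕ) = 0) ∨ ((a.1 : ℕ) = 1 ∧ (b.1 : ℕ) = 2) ∨
      ((a.1 : ℕ) = 2 ∧ (b.1 : ℕ) = 1) ∨ ((a.1 : ℕ) = 2 ∧ (b.1 : ℕ) = 2)))

/-- two adjacent vertices `0, 1` and `e + 2` copies of the complete graph on `e + 4` vertices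
without the edge `01`, whose vertex `0` is joined to `0` and whose vertex `1` is joined to `1`;
it is `(e + 3)`-regular -/
def edg (e : ℕ) : SimpleGraph (Fin 2 ⊕ (Fin (e + 2) × Fin (e + 4))) :=
  SimpleGraph.fromRel fun a b => match a, b with
    | Sum.inl _, Sum.inl _ => True
    | Sum.inl x, Sum.inr y => (x : ℕ) = (y.2 : ℕ)
    | Sum.inr _, Sum.inl _ => False
    | Sum.inr x, Sum.inr y => x.1 = y.1 ∧ ¬ ((x.2 : ℕ) ≤ 1 ∧ (y.2 : ℕ) ≤ 1)

/-- a vertex and `e + 2` copies of the complete graph on `2 * e + 5` vertices without the edge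
`01`, whose vertices `0` and `1` are joined to it; it is `(2 * e + 4)`-regular -/
def evn (e : ℕ) : SimpleGraph (Unit ⊕ (Fin (e + 2) × Fin (2 * e + 5))) :=
  SimpleGraph.fromRel fun a b => match a, b with
    | Sum.inl _, Sum.inl _ => False
    | Sum.inl _, Sum.inr y => (y.2 : ℕ) ≤ 1
    | Sum.inr _, Sum.inl _ => False
    | Sum.inr x, Sum.inr y => x.1 = y.1 ∧ ¬ ((x.2 : ℕ) ≤ 1 ∧ (y.2 : ℕ) ≤ 1)

/-- the deleted edges `01`, `02`, `34`, `56`, ... -/
def go (i j : ℕ) : Prop :=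
  (i = 0 ∧ j = 1) ∨ (i = 0 ∧ j = 2) ∨ (3 ≤ i ∧ i % 2 = 1 ∧ j = i + 1)

/-- a vertex and `2 * e + 3` copies of the complete graph on `2 * e + 5` vertices without the
edges `go`, whose vertices `0` are joined to it; it is `(2 * e + 3)`-regular -/
def odg (e : ℕ) : SimpleGraph (Unit ⊕ (Fin (2 * e + 3) × Fin (2 * e + 5))) :=
  SimpleGraph.fromRel fun a b => match a, b with
    | Sum.inl _, Sum.inl _ => False
    | Sum.inl _, Sum.inr y => (y.2 : ℕ) = 0
    | Sum.inr _, Sum.inl _ => False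
    | Sum.inr x, Sum.inr y => x.1 = y.1 ∧ ¬ (go x.2 y.2 ∨ go y.2 x.2)

end Pool.Agent.Q239.PC
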