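import Pool.Agent.Q239.PC.Star

set_option autoImplicit false

namespace Pool.Agent.Q239.PC

open SimpleGraph Finset

theorem edg_ll {e : ℕ} (x y : Fin 2) : (edg e).Adj (Sum.inl x) (Sum.inl y) ↔ (x : ℕ) ≠ y := by
  rw [edg, fromRel_adj]
  simp only [ne_eq, Sum.inl.injEq, or_self, and_true, Fin.ext_iff]

theorem edg_lr {e : ℕ} (x : Fin 2) (y : Fin (e + 2) × Fin (e + 4)) :
    (edg e).Adj (Sum.inl x) (Sum.inr y) ↔ (x : ℕ) = y.2 := by
  rw [edg, fromRel_adj]
  simp only [ne_eq, reduceCtorEq, not_false_eq_true, or_false, true_and]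

theorem edg_rl {e : ℕ} (x : Fin 2) (y : Fin (e + 2) × Fin (e + 4)) :
    (edg e).Adj (Sum.inr y) (Sum.inl x) ↔ (x : ℕ) = y.2 := by
  rw [adj_comm, edg_lr]

theorem edg_rr {e : ℕ} (x y : Fin (e + 2) × Fin (e + 4)) :
    (edg e).Adj (Sum.inr x) (Sum.inr y) ↔ x.1 = y.1 ∧ (x.2 : ℕ) ≠ y.2 ∧
      ¬ ((x.2 : ℕ) ≤ 1 ∧ (y.2 : ℕ) ≤ 1) := by
  rw [edg, fromRel_adj]
  have e1 : x.1 = y.1 ↔ y.1 = x.1 := eq_comm
  simp only [ne_eq, Sum.inr.injEq, Prod.ext_iff, ← e1, Fin.ext_iff (a := x.2)]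
  by_cases h : x.1 = y.1
  · simp only [h, true_and]
    omega
  · simp only [h, false_and, or_false, and_false]

theorem edg_reg (e : ℕ) : Reg (e + 3) (edg e) := by
  classical
  intro v
  rcases v with x | x
  · obtain ⟨y, hy⟩ : ∃ y : Fin 2, (y : ℕ) ≠ x := by
      by_cases h : (x : ℕ) = 0
      · exact ⟨1, by rw [h]; simp⟩
      · exact ⟨0, fun h' => h h'.symm⟩
    have hx := x.2
    have hy2 := y.2
    rw [ncard_sum (edg e) _ {y} ((univ : Finset (Fin (e + 2))).image
      fun i => (i, (⟨x, by omega⟩ : Fin (e + 4)))), card_row, card_singleton]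
    · omega
    · intro t
      rw [edg_ll, mem_singleton, Fin.ext_iff]
      have := t.2
      omega
    · intro z
      rw [edg_lr, mem_row, Fin.ext_iff]
      simp only
      exact eq_comm
  · obtain ⟨i, z⟩ := x
    by_cases hz : (z : ℕ) ≤ 1
    · rw [ncard_sum (edg e) _ {⟨z, by omega⟩} ((({⟨0, by omega⟩, ⟨1, by omega⟩} :
        Finset (Fin (e + 4)))ᶜ).image fun z => (i, z)), card_blob, card_singleton, card_pair]
      · omega
      · rw [ne_eq, Fin.ext_iff]
        simp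
      · intro t
        rw [edg_rl, mem_singleton, Fin.ext_iff]
      · intro y
        rw [edg_rr, mem_blob, mem_insert, mem_singleton, Fin.ext_iff (a := y.2),
          Fin.ext_iff (a := y.2)]
        simp only
        refine and_congr_right fun _ => ?_
        omega
    · rw [ncard_sum (edg e) _ ∅ ((({z} : Finset (Fin (e + 4)))ᶜ).image fun z => (i, z)),
        card_blob, card_singleton, card_empty]
      · omega
      · intro t
        rw [edg_rl]
        have := t.2
        simp only [notMem_empty, iff_false]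
        omega
      · intro y
        rw [edg_rr, mem_blob, mem_singleton, Fin.ext_iff (a := y.2)]
        simp only
        refine and_congr_right fun _ => ?_
        omega

/-- separating paths, given by a list of vertices -/
theorem sep_star {T W : Type} (G : SimpleGraph (T ⊕ W)) (l : ℕ) (f : ℕ → T ⊕ W) (A : Set W)
    (hl : 2 ≤ l) (hinj : ∀ i j, i ≤ l → j ≤ l → f i = f j → i = j)
    (hadj : ∀ i, i < l → G.Adj (f i) (f (i + 1)))
    (h0 : ∃ x, x ∈ A ∧ f 0 = Sum.inr x) (h1 : ∃ x, x ∉ A ∧ f l = Sum.inr x)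
    (hin : ∀ x y, x ∈ A → y ∉ A → ¬ G.Adj (Sum.inr x) (Sum.inr y))
    (hT : ∀ x y, y ∈ A → G.Adj (Sum.inr y) (Sum.inl x) → ∃ i, 0 < i ∧ i < l ∧ f i = Sum.inl x) :
    Sep G l := by
  refine ⟨hl, f, Sum.inr '' A, hinj, hadj, ?_, ?_, ?_⟩
  · obtain ⟨x, hx, h⟩ := h0
    exact ⟨x, hx, h.symm⟩
  · obtain ⟨x, hx, h⟩ := h1
    rintro ⟨y, hy, h'⟩
    rw [h] at h'
    have := Sum.inr_injective h'
    subst this
    exact hx hy
  · rintro _ b ⟨a, ha, rfl⟩ hb _ hb' hab
    rcases b with b | b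
    · obtain ⟨i, h1, h2, h3⟩ := hT b a ha hab
      exact hb' i h1 h2 h3
    · exact hin a b ha (fun h => hb ⟨b, h, rfl⟩) hab

theorem edr : S_EDR := by
  intro e
  refine ⟨edg_reg e, ?_, ?_⟩
  · set a : Fin (e + 2) × Fin (e + 4) := (⟨0, by omega⟩, ⟨0, by omega⟩) with ha
    set b : Fin (e + 2) × Fin (e + 4) := (⟨1, by omega⟩, ⟨1, by omega⟩) with hb
    obtain ⟨f, f0, f1, f2, f3⟩ : ∃ f : ℕ → Fin 2 ⊕ (Fin (e + 2) × Fin (e + 4)),
        f 0 = Sum.inr a ∧ f 1 = Sum.inl 0 ∧ f 2 = Sum.inl 1 ∧ f 3 = Sum.inr b :=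
      ⟨fun i => if i = 0 then Sum.inr a else if i = 1 then Sum.inl 0 else if i = 2 then
        Sum.inl 1 else Sum.inr b, rfl, rfl, rfl, rfl⟩
    refine sep_star (edg e) 3 f {x | (x.1 : ℕ) = 0} (by omega) ?_ ?_ ⟨a, rfl, f0⟩
      ⟨b, by simp [hb], f3⟩ ?_ ?_
    · intro i j hi hj h
      interval_cases i <;> interval_cases j <;> simp_all
    · intro i hi
      interval_cases i
      · rw [f0, f1, edg_rl]
        rfl
      · rw [f1, f2, edg_ll]
        simp
      · rw [f2, f3, edg_lr]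
        rfl
    · intro x y hx hy h
      rw [edg_rr] at h
      apply hy
      show (y.1 : ℕ) = 0
      rw [← h.1]
      exact hx
    · intro x y _ h
      have hx : x = 0 ∨ x = 1 := by
        rw [Fin.ext_iff, Fin.ext_iff]
        have := x.2
        simp only [Fin.val_zero, Fin.val_one]
        omega
      rcases hx with rfl | rfl
      · exact ⟨1, by omega, by omega, f1⟩
      · exact ⟨2, by omega, by omega, f2⟩
  · set a : Fin (e + 2) × Fin (e + 4) := (⟨0, by omega⟩, ⟨0, by omega⟩) with ha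
    set b : Fin (e + 2) × Fin (e + 4) := (⟨1, by omega⟩, ⟨1, by omega⟩) with hb
    set c : Fin (e + 2) × Fin (e + 4) := (⟨0, by omega⟩, ⟨2, by omega⟩) with hc
    obtain ⟨f, f0, f1, f2, f3, f4⟩ : ∃ f : ℕ → Fin 2 ⊕ (Fin (e + 2) × Fin (e + 4)),
        f 0 = Sum.inr c ∧ f 1 = Sum.inr a ∧ f 2 = Sum.inl 0 ∧ f 3 = Sum.inl 1 ∧
          f 4 = Sum.inr b :=
      ⟨fun i => if i = 0 then Sum.inr c else if i = 1 then Sum.inr a else if i = 2 then
        Sum.inl 0 else if i = 3 then Sum.inl 1 else Sum.inr b, rfl, rfl, rfl, rfl, rfl⟩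
    refine sep_star (edg e) 4 f {x | (x.1 : ℕ) = 0} (by omega) ?_ ?_ ⟨c, rfl, f0⟩
      ⟨b, by simp [hb], f4⟩ ?_ ?_
    · intro i j hi hj h
      interval_cases i <;> interval_cases j <;> simp_all
    · intro i hi
      interval_cases i
      · rw [f0, f1, edg_rr]
        refine ⟨rfl, ?_, ?_⟩ <;> simp [ha, hc]
      · rw [f1, f2, edg_rl]
        rfl
      · rw [f2, f3, edg_ll]
        simp
      · rw [f3, f4, edg_lr]
        rfl
    · intro x y hx hy h
      rw [edg_rr] at h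
      apply hy
      show (y.1 : ℕ) = 0
      rw [← h.1]
      exact hx
    · intro x y _ h
      have hx : x = 0 ∨ x = 1 := by
        rw [Fin.ext_iff, Fin.ext_iff]
        have := x.2
        simp only [Fin.val_zero, Fin.val_one]
        omega
      rcases hx with rfl | rfl
      · exact ⟨2, by omega, by omega, f2⟩
      · exact ⟨3, by omega, by omega, f3⟩

end Pool.Agent.Q239.PC
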