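import Pool.Agent.Q239.PC.ED

set_option autoImplicit false

namespace Pool.Agent.Q239.PC

open SimpleGraph Finset

theorem edc : S_EDC := by
  classical
  intro e
  refine Or.inr ⟨?_, fun X hX => ?_⟩
  · rw [Fintype.card_sum, Fintype.card_prod, Fintype.card_fin, Fintype.card_fin,
      Fintype.card_fin]
    have : 0 < (e + 2) * (e + 4) := by positivity
    omega
  have huniq : ∀ a b, a ∈ X → b ∈ X → a = b := by
    intro a b ha hb
    exact (Set.ncard_le_one (Set.toFinite _)).1 (by omega) a ha b hb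
  -- blobs
  have blob : ∀ (i : Fin (e + 2)) (y z : Fin (e + 4)), Sum.inr (i, y) ∉ X → Sum.inr (i, z) ∉ X →
      RX (edg e) X (Sum.inr (i, y)) (Sum.inr (i, z)) := by
    intro i y z hy hz
    by_cases hyz : y = z
    · subst hyz
      exact RX.rfl
    by_cases ha : (edg e).Adj (Sum.inr (i, y)) (Sum.inr (i, z))
    · exact RX.of_adj ha hy hz
    rw [edg_rr] at ha
    simp only [true_and] at ha
    rw [Fin.ext_iff] at hyz
    have key : ∀ w : Fin (e + 4), 2 ≤ (w : ℕ) → Sum.inr (i, w) ∉ X →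
        RX (edg e) X (Sum.inr (i, y)) (Sum.inr (i, z)) := by
      intro w hw hwX
      have a1 : (edg e).Adj (Sum.inr (i, y)) (Sum.inr (i, w)) := by
        rw [edg_rr]
        refine ⟨rfl, ?_, ?_⟩ <;> simp only <;> omega
      have a2 : (edg e).Adj (Sum.inr (i, w)) (Sum.inr (i, z)) := by
        rw [edg_rr]
        refine ⟨rfl, ?_, ?_⟩ <;> simp only <;> omega
      exact (RX.of_adj a1 hy hwX).trans (RX.of_adj a2 hwX hz)
    by_cases h2 : Sum.inr (i, (⟨2, by omega⟩ : Fin (e + 4))) ∈ X
    · refine key ⟨3, by omega⟩ (by simp) fun h3 => ?_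
      have := huniq _ _ h2 h3
      simp at this
    · exact key _ (by simp) h2
  obtain ⟨x, hx⟩ : ∃ x : Fin 2, Sum.inl x ∉ X := by
    by_contra hc
    push Not at hc
    have := huniq _ _ (hc 0) (hc 1)
    simp at this
  refine connected_of (Sum.inl x) hx ?_
  rintro (y | ⟨i, z⟩) hy
  · by_cases hxy : x = y
    · subst hxy
      exact RX.rfl
    · refine RX.of_adj ?_ hx hy
      rw [edg_ll]
      rwa [ne_eq, ← Fin.ext_iff]
  · have hx2 := x.2
    by_cases h1 : Sum.inr (i, (⟨x, by omega⟩ : Fin (e + 4))) ∈ X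
    · obtain ⟨y, hyx⟩ : ∃ y : Fin 2, (y : ℕ) ≠ x := by
        by_cases h : (x : ℕ) = 0
        · exact ⟨1, by rw [h]; simp⟩
        · exact ⟨0, fun h' => h h'.symm⟩
      have hy2 := y.2
      have h3 : Sum.inl y ∉ X := fun h => by
        have := huniq _ _ h h1
        simp at this
      have h4 : Sum.inr (i, (⟨y, by omega⟩ : Fin (e + 4))) ∉ X := fun h => by
        have := huniq _ _ h h1
        simp only [Sum.inr.injEq, Prod.mk.injEq, true_and, Fin.mk.injEq] at this
        exact hyx this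
      have a1 : (edg e).Adj (Sum.inl x) (Sum.inl y) := by
        rw [edg_ll]
        exact hyx.symm
      have a2 : (edg e).Adj (Sum.inl y) (Sum.inr (i, (⟨y, by omega⟩ : Fin (e + 4)))) := by
        rw [edg_lr]
      exact (RX.of_adj a1 hx h3).trans ((RX.of_adj a2 h3 h4).trans (blob i _ z h4 hy))
    · have a2 : (edg e).Adj (Sum.inl x) (Sum.inr (i, (⟨x, by omega⟩ : Fin (e + 4)))) := by
        rw [edg_lr]
      exact (RX.of_adj a2 hx h1).trans (blob i _ z h1 hy)

end Pool.Agent.Q239.PC
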