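import Pool.Agent.Q239.PC.ED

set_option autoImplicit false

namespace Pool.Agent.Q239.PC

open SimpleGraph Finset

theorem evn_ll {e : ℕ} (x y : Unit) : ¬ (evn e).Adj (Sum.inl x) (Sum.inl y) := by
  rw [evn, fromRel_adj]
  rintro ⟨h, -⟩
  exact h rfl

theorem evn_lr {e : ℕ} (x : Unit) (y : Fin (e + 2) × Fin (2 * e + 5)) :
    (evn e).Adj (Sum.inl x) (Sum.inr y) ↔ (y.2 : ℕ) ≤ 1 := by
  rw [evn, fromRel_adj]
  simp only [ne_eq, reduceCtorEq, not_false_eq_true, or_false, true_and]

theorem evn_rl {e : ℕ} (x : Unit) (y : Fin (e + 2) × Fin (2 * e + 5)) :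
    (evn e).Adj (Sum.inr y) (Sum.inl x) ↔ (y.2 : ℕ) ≤ 1 := by
  rw [adj_comm, evn_lr]

theorem evn_rr {e : ℕ} (x y : Fin (e + 2) × Fin (2 * e + 5)) :
    (evn e).Adj (Sum.inr x) (Sum.inr y) ↔ x.1 = y.1 ∧ (x.2 : ℕ) ≠ y.2 ∧
      ¬ ((x.2 : ℕ) ≤ 1 ∧ (y.2 : ℕ) ≤ 1) := by
  rw [evn, fromRel_adj]
  have e1 : x.1 = y.1 ↔ y.1 = x.1 := eq_comm
  simp only [ne_eq, Sum.inr.injEq, Prod.ext_iff, ← e1, Fin.ext_iff (a := x.2)]
  by_cases h : x.1 = y.1
  · simp only [h, true_and]
    omega
  · simp only [h, false_and, or_false, and_false]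

theorem evn_reg (e : ℕ) : Reg (2 * e + 4) (evn e) := by
  classical
  intro v
  rcases v with x | x
  · rw [ncard_sum (evn e) _ ∅ (((univ : Finset (Fin (e + 2))).image
      fun i => (i, (⟨0, by omega⟩ : Fin (2 * e + 5)))) ∪ ((univ : Finset (Fin (e + 2))).image
      fun i => (i, (⟨1, by omega⟩ : Fin (2 * e + 5))))), card_union_of_disjoint, card_row,
      card_row, card_empty]
    · omega
    · rw [Finset.disjoint_left]
      intro y h1 h2
      rw [mem_row] at h1 h2
      have := h1.symm.trans h2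
      simp at this
    · intro t
      simp only [evn_ll, notMem_empty]
    · intro z
      rw [evn_lr, mem_union, mem_row, mem_row, Fin.ext_iff, Fin.ext_iff]
      simp only
      omega
  · obtain ⟨i, z⟩ := x
    by_cases hz : (z : ℕ) ≤ 1
    · rw [ncard_sum (evn e) _ {()} ((({⟨0, by omega⟩, ⟨1, by omega⟩} :
        Finset (Fin (2 * e + 5)))ᶜ).image fun z => (i, z)), card_blob, card_singleton, card_pair]
      · omega
      · rw [ne_eq, Fin.ext_iff]
        simp
      · intro t
        rw [evn_rl, mem_singleton]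
        simp only [hz]
      · intro y
        rw [evn_rr, mem_blob, mem_insert, mem_singleton, Fin.ext_iff (a := y.2),
          Fin.ext_iff (a := y.2)]
        simp only
        refine and_congr_right fun _ => ?_
        omega
    · rw [ncard_sum (evn e) _ ∅ ((({z} : Finset (Fin (2 * e + 5)))ᶜ).image fun z => (i, z)),
        card_blob, card_singleton, card_empty]
      · omega
      · intro t
        rw [evn_rl]
        simp only [notMem_empty, iff_false]
        omega
      · intro y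
        rw [evn_rr, mem_blob, mem_singleton, Fin.ext_iff (a := y.2)]
        simp only
        refine and_congr_right fun _ => ?_
        omega

/-- `1`-connected -/
theorem kconn_one {V : Type} [Fintype V] (G : SimpleGraph V) (h1 : 1 < Fintype.card V) (x0 : V)
    (h : ∀ X : Set V, X = ∅ → ∀ y, RX G X x0 y) : KConn 1 G := by
  refine Or.inr ⟨h1, fun X hX => ?_⟩
  have hX0 : X = ∅ := (Set.ncard_eq_zero (Set.toFinite _)).1 (by omega)
  refine connected_of x0 (by rw [hX0]; exact fun h => h) fun y _ => h X hX0 y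

theorem evn_all : S_EVN := by
  intro e
  refine ⟨evn_reg e, ?_, ?_⟩
  · refine kconn_one _ ?_ (Sum.inl ()) ?_
    · rw [Fintype.card_sum, Fintype.card_prod, Fintype.card_fin, Fintype.card_fin,
        Fintype.card_unit]
      have : 0 < (e + 2) * (2 * e + 5) := by positivity
      omega
    · intro X hX y
      have hn : ∀ z, z ∉ X := fun z hz => by
        rw [hX] at hz
        exact hz
      rcases y with y | ⟨i, z⟩
      · exact RX.rfl
      by_cases hz : (z : ℕ) ≤ 1
      · exact RX.of_adj (by rw [evn_lr]; exact hz) (hn _) (hn _)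
      · have a1 : (evn e).Adj (Sum.inl ()) (Sum.inr (i, (⟨0, by omega⟩ : Fin (2 * e + 5)))) := by
          rw [evn_lr]
          simp
        have a2 : (evn e).Adj (Sum.inr (i, (⟨0, by omega⟩ : Fin (2 * e + 5))))
            (Sum.inr (i, z)) := by
          rw [evn_rr]
          refine ⟨rfl, ?_, ?_⟩ <;> simp only <;> omega
        exact (RX.of_adj a1 (hn _) (hn _)).trans (RX.of_adj a2 (hn _) (hn _))
  · set a : Fin (e + 2) × Fin (2 * e + 5) := (⟨0, by omega⟩, ⟨0, by omega⟩) with ha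
    set b : Fin (e + 2) × Fin (2 * e + 5) := (⟨1, by omega⟩, ⟨0, by omega⟩) with hb
    obtain ⟨f, f0, f1, f2⟩ : ∃ f : ℕ → Unit ⊕ (Fin (e + 2) × Fin (2 * e + 5)),
        f 0 = Sum.inr a ∧ f 1 = Sum.inl () ∧ f 2 = Sum.inr b :=
      ⟨fun i => if i = 0 then Sum.inr a else if i = 1 then Sum.inl () else Sum.inr b,
        rfl, rfl, rfl⟩
    refine sep_star (evn e) 2 f {x | (x.1 : ℕ) = 0} (by omega) ?_ ?_ ⟨a, rfl, f0⟩
      ⟨b, by simp [hb], f2⟩ ?_ ?_
    · intro i j hi hj h
      interval_cases i <;> interval_cases j <;> simp_all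
    · intro i hi
      interval_cases i
      · rw [f0, f1, evn_rl]
        simp [ha]
      · rw [f1, f2, evn_lr]
        simp [hb]
    · intro x y hx hy h
      rw [evn_rr] at h
      apply hy
      show (y.1 : ℕ) = 0
      rw [← h.1]
      exact hx
    · intro x y _ h
      exact ⟨1, by omega, by omega, f1⟩

theorem odg_ll {e : ℕ} (x y : Unit) : ¬ (odg e).Adj (Sum.inl x) (Sum.inl y) := by
  rw [odg, fromRel_adj]
  rintro ⟨h, -⟩
  exact h rfl

theorem odg_lr {e : ℕ} (x : Unit) (y : Fin (2 * e + 3) × Fin (2 * e + 5)) :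
    (odg e).Adj (Sum.inl x) (Sum.inr y) ↔ (y.2 : ℕ) = 0 := by
  rw [odg, fromRel_adj]
  simp only [ne_eq, reduceCtorEq, not_false_eq_true, or_false, true_and]

theorem odg_rl {e : ℕ} (x : Unit) (y : Fin (2 * e + 3) × Fin (2 * e + 5)) :
    (odg e).Adj (Sum.inr y) (Sum.inl x) ↔ (y.2 : ℕ) = 0 := by
  rw [adj_comm, odg_lr]

theorem odg_rr {e : ℕ} (x y : Fin (2 * e + 3) × Fin (2 * e + 5)) :
    (odg e).Adj (Sum.inr x) (Sum.inr y) ↔ x.1 = y.1 ∧ (x.2 : ℕ) ≠ y.2 ∧
      ¬ (go x.2 y.2 ∨ go y.2 x.2) := by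
  rw [odg, fromRel_adj]
  have e1 : x.1 = y.1 ↔ y.1 = x.1 := eq_comm
  have e2 : go y.2 x.2 ∨ go x.2 y.2 ↔ go x.2 y.2 ∨ go y.2 x.2 := or_comm
  simp only [ne_eq, Sum.inr.injEq, Prod.ext_iff, ← e1, Fin.ext_iff (a := x.2), e2]
  by_cases h : x.1 = y.1
  · simp only [h, true_and, or_self]
  · simp only [h, false_and, or_false, and_false]

theorem card_three' {n : ℕ} [DecidableEq (Fin n)] {a b c : Fin n} (h : (a : ℕ) ≠ b)
    (h1 : (a : ℕ) ≠ c) (h2 : (b : ℕ) ≠ c) : ({a, b, c} : Finset (Fin n)).card = 3 := by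
  rw [card_insert_of_notMem, card_insert_of_notMem, card_singleton]
  · rwa [mem_singleton, Fin.ext_iff]
  · rw [mem_insert, mem_singleton, Fin.ext_iff, Fin.ext_iff]
    tauto

theorem card_two' {n : ℕ} [DecidableEq (Fin n)] {a b : Fin n} (h : (a : ℕ) ≠ b) :
    ({a, b} : Finset (Fin n)).card = 2 := by
  rw [card_insert_of_notMem, card_singleton]
  rwa [mem_singleton, Fin.ext_iff]

theorem odg_reg (e : ℕ) : Reg (2 * e + 3) (odg e) := by
  classical
  intro v
  rcases v with x | x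
  · rw [ncard_sum (odg e) _ ∅ ((univ : Finset (Fin (2 * e + 3))).image
      fun i => (i, (⟨0, by omega⟩ : Fin (2 * e + 5)))), card_row, card_empty]
    · omega
    · intro t
      simp only [odg_ll, notMem_empty]
    · intro z
      rw [odg_lr, mem_row, Fin.ext_iff]
  · obtain ⟨i, z⟩ := x
    by_cases hz : (z : ℕ) = 0
    · rw [ncard_sum (odg e) _ {()} ((({⟨0, by omega⟩, ⟨1, by omega⟩, ⟨2, by omega⟩} :
        Finset (Fin (2 * e + 5)))ᶜ).image fun z => (i, z)), card_blob, card_singleton,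
        card_three' (by simp) (by simp) (by simp)]
      · omega
      · intro t
        rw [odg_rl, mem_singleton]
        simp only [hz]
      · intro y
        rw [odg_rr, mem_blob, mem_insert, mem_insert, mem_singleton, Fin.ext_iff (a := y.2),
          Fin.ext_iff (a := y.2), Fin.ext_iff (a := y.2), go, go]
        simp only
        refine and_congr_right fun _ => ?_
        omega
    · obtain ⟨w, hw⟩ : ∃ w : Fin (2 * e + 5), ((z : ℕ) ≤ 2 ∧ (w : ℕ) = 0) ∨
          (3 ≤ (z : ℕ) ∧ (z : ℕ) % 2 = 1 ∧ (w : ℕ) = z + 1) ∨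
          (3 ≤ (z : ℕ) ∧ (z : ℕ) % 2 = 0 ∧ (w : ℕ) + 1 = z) := by
        have hz2 := z.2
        by_cases h : (z : ℕ) ≤ 2
        · exact ⟨⟨0, by omega⟩, Or.inl ⟨h, rfl⟩⟩
        rcases Nat.mod_two_eq_zero_or_one (z : ℕ) with h1 | h1
        · exact ⟨⟨z - 1, by omega⟩, Or.inr (Or.inr ⟨by omega, h1, by simp only; omega⟩)⟩
        · exact ⟨⟨z + 1, by omega⟩, Or.inr (Or.inl ⟨by omega, h1, rfl⟩)⟩
      rw [ncard_sum (odg e) _ ∅ ((({z, w} : Finset (Fin (2 * e + 5)))ᶜ).image fun z => (i, z)),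
        card_blob, card_two' (by omega), card_empty]
      · omega
      · intro t
        rw [odg_rl]
        simp only [notMem_empty, iff_false]
        exact hz
      · intro y
        rw [odg_rr, mem_blob, mem_insert, mem_singleton, Fin.ext_iff (a := y.2),
          Fin.ext_iff (a := y.2), go, go]
        simp only
        refine and_congr_right fun _ => ?_
        omega

theorem odg_all : S_ODG := by
  intro e
  refine ⟨odg_reg e, kconn_one _ ?_ (Sum.inl ()) ?_⟩
  · rw [Fintype.card_sum, Fintype.card_prod, Fintype.card_fin, Fintype.card_fin,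
      Fintype.card_unit]
    have : 0 < (2 * e + 3) * (2 * e + 5) := by positivity
    omega
  · intro X hX y
    have hn : ∀ z, z ∉ X := fun z hz => by
      rw [hX] at hz
      exact hz
    rcases y with y | ⟨i, z⟩
    · exact RX.rfl
    have a1 : (odg e).Adj (Sum.inl ()) (Sum.inr (i, (⟨0, by omega⟩ : Fin (2 * e + 5)))) := by
      rw [odg_lr]
    have a3 : (odg e).Adj (Sum.inr (i, (⟨0, by omega⟩ : Fin (2 * e + 5))))
        (Sum.inr (i, (⟨3, by omega⟩ : Fin (2 * e + 5)))) := by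
      rw [odg_rr, go, go]
      refine ⟨rfl, ?_, ?_⟩ <;> simp
    have r3 := (RX.of_adj a1 (hn _) (hn _)).trans (RX.of_adj (X := X) a3 (hn _) (hn _))
    by_cases h0 : (z : ℕ) = 0
    · exact RX.of_adj (by rw [odg_lr]; exact h0) (hn _) (hn _)
    by_cases h1 : (z : ℕ) ≤ 2
    · refine r3.trans (RX.of_adj ?_ (hn _) (hn _))
      rw [odg_rr, go, go]
      refine ⟨rfl, ?_, ?_⟩ <;> simp only <;> omega
    · refine (RX.of_adj a1 (hn _) (hn _)).trans (RX.of_adj ?_ (hn _) (hn _))
      rw [odg_rr, go, go]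
      refine ⟨rfl, ?_, ?_⟩ <;> simp only <;> omega

end Pool.Agent.Q239.PC
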