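import Pool.Agent.Q239.PC.TW

set_option autoImplicit false

namespace Pool.Agent.Q239.PC

open SimpleGraph Finset

/-- the deleted edges of `fou` -/
def dl (i j : ℕ) : Prop :=
  (i = 0 ∧ j = 1) ∨ (i = 1 ∧ j = 0) ∨ (i = 2 ∧ j = 3) ∨ (i = 3 ∧ j = 2)

theorem fou_adj {n : ℕ} (a b : Fin n × Bool) : (fou n).Adj a b ↔
    (a.2 = b.2 ∧ (a.1 : ℕ) ≠ b.1 ∧ ¬ dl a.1 b.1) ∨
    (a.2 ≠ b.2 ∧ (a.1 : ℕ) = b.1 ∧ (a.1 : ℕ) < 4) := by
  rw [fou, fromRel_adj]
  have e1 : a ≠ b ↔ ¬ ((a.1 : ℕ) = b.1 ∧ a.2 = b.2) := by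
    rw [ne_eq, Prod.ext_iff, Fin.ext_iff]
  have e2 : a.2 = b.2 ↔ b.2 = a.2 := eq_comm
  rw [e1, ne_eq, ne_eq, Fin.ext_iff, Fin.ext_iff, ← e2, dl]
  by_cases h : a.2 = b.2
  · simp only [h, true_and, and_true, not_true_eq_false, false_and, or_false]
    omega
  · simp only [h, true_and, and_true, not_false_eq_true, false_and, and_false, false_or]
    omega

theorem fou_same {n : ℕ} (i j : Fin n) (s : Bool) : (fou n).Adj (i, s) (j, s) ↔
    ((i : ℕ) ≠ j ∧ ¬ dl i j) := by
  rw [fou_adj]
  simp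

theorem fou_cross {n : ℕ} (i j : Fin n) (s : Bool) : (fou n).Adj (i, s) (j, !s) ↔
    ((i : ℕ) = j ∧ (i : ℕ) < 4) := by
  rw [fou_adj]
  simp

theorem for_rs : S_FOR := by
  classical
  intro n hn
  refine ⟨reg_of _ fun i s => ?_, ?_⟩
  · by_cases hi : (i : ℕ) < 4
    · obtain ⟨p, hp⟩ : ∃ p : Fin n, ((i : ℕ) % 2 = 0 ∧ (p : ℕ) = i + 1) ∨
          ((i : ℕ) % 2 = 1 ∧ (p : ℕ) + 1 = i) := by
        rcases Nat.mod_two_eq_zero_or_one (i : ℕ) with h | h
        · exact ⟨⟨i + 1, by omega⟩, Or.inl ⟨h, rfl⟩⟩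
        · exact ⟨⟨i - 1, by omega⟩, Or.inr ⟨h, by simp only; omega⟩⟩
      refine ⟨{i, p}, {i}, ?_, ?_, ?_⟩
      · rw [card_insert_of_notMem, card_singleton, card_singleton]
        rw [mem_singleton, Fin.ext_iff]
        omega
      · intro j
        rw [fou_same, mem_insert, mem_singleton, Fin.ext_iff, Fin.ext_iff, dl]
        omega
      · intro j
        rw [fou_cross, mem_singleton, Fin.ext_iff]
        omega
    · refine ⟨{i}, ∅, ?_, ?_, ?_⟩
      · rw [card_singleton, card_empty]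
      · intro j
        rw [fou_same, mem_singleton, Fin.ext_iff, dl]
        omega
      · intro j
        rw [fou_cross]
        simp only [notMem_empty, iff_false]
        omega
  · obtain ⟨x, h0, h1, h2, h3, h4⟩ : ∃ x : ℕ → ℕ, x 0 = 4 ∧ x 1 = 0 ∧ x 2 = 2 ∧ x 3 = 1 ∧
        x 4 = 3 := ⟨fun i => if i = 0 then 4 else if i = 1 then 0 else if i = 2 then 2 else
          if i = 3 then 1 else 3, rfl, rfl, rfl, rfl, rfl⟩
    refine sep_two (l := 5) _ (by omega) x 3 ?_ (by omega) (by omega) ?_ ?_ ?_ ?_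
    · intro i hi
      interval_cases i <;> omega
    · intro i j hi hj h
      interval_cases i <;> interval_cases j <;> omega
    · intro i hi a b ha hb
      rw [fou_same, dl]
      have : i < 4 := by omega
      interval_cases i <;> simp only [zero_add, Nat.reduceAdd] at hb <;> omega
    · intro a b ha hb
      have := (fou_cross a b false).2
      rw [Bool.not_false] at this
      apply this
      simp only [Nat.reduceSub] at ha
      omega
    · intro a b hab
      have h := (fou_cross a b false).1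
      rw [Bool.not_false] at h
      have h' := h hab
      obtain ⟨c, hc⟩ : ∃ c : ℕ, c = a := ⟨_, rfl⟩
      rw [← hc] at h' ⊢
      have h5 : c < 4 := h'.2
      interval_cases c
      · exact ⟨1, by omega, by omega, h1⟩
      · exact ⟨3, by omega, by omega, h3⟩
      · exact ⟨2, by omega, by omega, h2⟩
      · exact ⟨4, by omega, by omega, h4⟩

theorem foc : S_FOC := by
  classical
  intro n hn
  refine Or.inr ⟨?_, fun X hX => ?_⟩
  · rw [Fintype.card_prod, Fintype.card_fin, Fintype.card_bool]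
    omega
  have good : ∀ (s : Bool), (side X s).ncard ≤ 2 → ∀ i j : Fin n, (i, s) ∉ X → (j, s) ∉ X →
      RX (fou n) X (i, s) (j, s) := by
    intro s hs i j hi hj
    by_cases hij : i = j
    · subst hij
      exact RX.rfl
    by_cases ha : (fou n).Adj (i, s) (j, s)
    · exact RX.of_adj ha hi hj
    rw [fou_same, dl] at ha
    rw [Fin.ext_iff] at hij
    refine RX.of_side {i, j} (fun z hz => ?_) ?_ hi hj
    · rw [fou_same, fou_same, dl, dl]
      rw [mem_insert, mem_singleton, Fin.ext_iff, Fin.ext_iff] at hz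
      omega
    · have : ({i, j} : Finset (Fin n)).card ≤ 2 := card_le_two
      omega
  refine conn_two ?_ ?_
  · intro s i j hi hj
    have hsc := side_card X s
    by_cases hs : (side X s).ncard ≤ 2
    · exact good s hs i j hi hj
    have h0 : (side X (!s)).ncard = 0 := by omega
    have h1 : ∀ z : Fin n, (z, !s) ∉ X := by
      intro z hz
      have : side X (!s) = ∅ := (Set.ncard_eq_zero (Set.toFinite _)).1 h0
      have h2 : z ∈ side X (!s) := hz
      rw [this] at h2
      exact h2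
    by_cases hij : i = j
    · subst hij
      exact RX.rfl
    by_cases ha : (fou n).Adj (i, s) (j, s)
    · exact RX.of_adj ha hi hj
    rw [fou_same, dl] at ha
    rw [Fin.ext_iff] at hij
    have a1 : (fou n).Adj (i, s) (i, !s) := by
      rw [fou_cross]
      omega
    have a2 : (fou n).Adj (j, s) (j, !s) := by
      rw [fou_cross]
      omega
    exact (RX.of_adj a1 hi (h1 i)).trans ((good (!s) (by omega) i j (h1 i) (h1 j)).trans
      (RX.of_adj a2 hj (h1 j)).symm)
  · obtain ⟨i, h1, h2⟩ := exists_cross (k := 4) X (fun i => ⟨i, by omega⟩)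
      (fun i => ⟨i, by omega⟩) (fun a b h => by simpa [Fin.ext_iff] using h)
      (fun a b h => by simpa [Fin.ext_iff] using h) hX
    refine ⟨_, _, h1, h2, ?_⟩
    have h := (fou_cross (n := n) ⟨i, by omega⟩ ⟨i, by omega⟩ false).2
    rw [Bool.not_false] at h
    exact h ⟨rfl, i.2⟩

end Pool.Agent.Q239.PC
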