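import Pool.Agent.Q239.PC.Stm

set_option autoImplicit false

namespace Pool.Agent.Q239.PC

open SimpleGraph

/-- a sequence of adjacent vertices gives a walk -/
theorem exists_walk {V : Type} (G : SimpleGraph V) (f : ℕ → V) (l : ℕ)
    (hf : ∀ i, i < l → G.Adj (f i) (f (i + 1))) :
    ∃ p : G.Walk (f 0) (f l), p.length = l ∧ ∀ i, i ≤ l → p.getVert i = f i := by
  induction l with
  | zero =>
    refine ⟨Walk.nil, rfl, fun i hi => ?_⟩
    obtain rfl : i = 0 := by omega
    rfl
  | succ l ih =>
    obtain ⟨p, h1, h2⟩ := ih fun i hi => hf i (by omega)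
    refine ⟨p.concat (hf l (by omega)), by simp [h1], fun i hi => ?_⟩
    rcases Nat.lt_or_ge l i with h | h
    · obtain rfl : i = l + 1 := by omega
      exact (p.concat (hf l (Nat.lt_succ_self l))).getVert_of_length_le (by simp [h1])
    · rw [Walk.concat_eq_append, Walk.getVert_append]
      split_ifs with h3
      · exact h2 i h
      · obtain rfl : i = l := by omega
        simp [h1]

/-- a cycle cannot contain a separating path -/
theorem sep_core {V : Type} [Fintype V] (G : SimpleGraph V) (l : ℕ) (hl : 2 ≤ l) (f : ℕ → V)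
    (A : Set V) (hinj : ∀ i j, i ≤ l → j ≤ l → f i = f j → i = j) (h0 : f 0 ∈ A) (hlA : f l ∉ A)
    (hA : ∀ a b, a ∈ A → b ∉ A → (∀ i, 0 < i → i < l → f i ≠ a) →
      (∀ i, 0 < i → i < l → f i ≠ b) → ¬ G.Adj a b) (w : V) (c : G.Walk w w) (hc : c.IsCycle)
    (hcf : ∀ i, i < l → c.toSubgraph.Adj (f i) (f (i + 1))) : False := by
  -- the graph of the cycle
  set H : SimpleGraph V := c.toSubgraph.spanningCoe with hH
  have hcyc : H.IsCycles := hc.isCycles_spanningCoe_toSubgraph
  have hHadj : ∀ i, i < l → H.Adj (f i) (f (i + 1)) := by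
    intro i hi
    rw [hH, Subgraph.spanningCoe_adj]
    exact hcf i hi
  obtain ⟨q, hql, hqf⟩ := exists_walk H f l hHadj
  have hq : q.IsPath := by
    rw [← Walk.IsPath.getVert_injOn_iff]
    intro i hi j hj h
    simp only [Set.mem_ofPred_eq] at hi hj
    rw [hqf i (by omega), hqf j (by omega)] at h
    exact hinj i j (by omega) (by omega) h
  have hr := hcyc.reachable_sdiff_toSubgraph_spanningCoe q hq
  -- inner vertices have no edges left
  have hinner : ∀ i, 0 < i → i < l → ∀ x, ¬ (H \ q.toSubgraph.spanningCoe).Adj (f i) x := by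
    intro i hi0 hil x hx
    rw [sdiff_adj, Subgraph.spanningCoe_adj] at hx
    have h1 : q.toSubgraph.Adj (f i) (f (i + 1)) := by
      have := q.toSubgraph_adj_getVert (i := i) (by omega)
      rwa [hqf i (by omega), hqf (i + 1) (by omega)] at this
    have h2 : q.toSubgraph.Adj (f i) (f (i - 1)) := by
      have := q.toSubgraph_adj_getVert (i := i - 1) (by omega)
      rw [hqf (i - 1) (by omega), hqf (i - 1 + 1) (by omega)] at this
      rw [show i - 1 + 1 = i by omega] at this
      exact this.symm
    have hne : f (i + 1) ≠ f (i - 1) := fun h => by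
      have := hinj _ _ (by omega) (by omega) h
      omega
    have hn : (H.neighborSet (f i)).ncard = 2 := hcyc ⟨_, hHadj i hil⟩
    have hsub : ({f (i + 1), f (i - 1), x} : Set V) ⊆ H.neighborSet (f i) := by
      rintro y (rfl | rfl | rfl)
      · exact hHadj i hil
      · have := hHadj (i - 1) (by omega)
        rw [show i - 1 + 1 = i by omega] at this
        exact this.symm
      · exact hx.1
    have h3 : ({f (i + 1), f (i - 1), x} : Set V).ncard = 3 := by
      rw [Set.ncard_eq_three]
      refine ⟨_, _, _, hne, ?_, ?_, rfl⟩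
      · rintro rfl
        exact hx.2 h1
      · rintro rfl
        exact hx.2 h2
    have := Set.ncard_le_ncard hsub (Set.toFinite _)
    omega
  -- reachable vertices stay in `A`
  have key : ∀ y, (H \ q.toSubgraph.spanningCoe).Reachable (f 0) y →
      y ∈ A ∧ ∀ i, 0 < i → i < l → f i ≠ y := by
    intro y hy
    rw [reachable_iff_reflTransGen] at hy
    induction hy with
    | refl =>
      exact ⟨h0, fun i hi hil h => by
        have := hinj _ _ (by omega) (by omega) h
        omega⟩
    | @tail y z _ hyz ih =>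
      have hz : ∀ i, 0 < i → i < l → f i ≠ z := by
        rintro i hi hil rfl
        exact hinner i hi hil y hyz.symm
      refine ⟨?_, hz⟩
      by_contra hzA
      refine hA y z ih.1 hzA ih.2 hz ?_
      exact c.toSubgraph.adj_sub hyz.1
  have := key _ hr.symm
  exact hlA this.1

theorem sep : S_SEP := by
  intro V _ G l hs
  obtain ⟨hl, f, A, hinj, hadj, h0, hlA, hA⟩ := hs
  obtain ⟨p, hpl, hpf⟩ := exists_walk G f l hadj
  have hp : p.IsPath := by
    rw [← Walk.IsPath.getVert_injOn_iff]
    intro i hi j hj h
    simp only [Set.mem_ofPred_eq] at hi hj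
    rw [hpf i (by omega), hpf j (by omega)] at h
    exact hinj i j (by omega) (by omega) h
  refine ⟨_, _, p, hp, hpl, ?_⟩
  rintro ⟨w, c, hc, hle⟩
  refine sep_core G l hl f A hinj h0 hlA hA w c hc fun i hi => hle.2 ?_
  have := p.toSubgraph_adj_getVert (i := i) (by omega)
  rwa [hpf i (by omega), hpf (i + 1) (by omega)] at this

end Pool.Agent.Q239.PC
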