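import Pool.Agent.Q239.PC.EV
import Pool.Agent.Q239.PC.SEP

set_option autoImplicit false

namespace Pool.Agent.Q239.PC

open SimpleGraph Finset

theorem odc : S_ODC := by
  intro e w c hc hmem
  have h2 := hc.ncard_neighborSet_toSubgraph_eq_two hmem
  obtain ⟨x, y, hxy, hn⟩ := Set.ncard_eq_two.1 h2
  have hx : c.toSubgraph.Adj (Sum.inl ()) x := by
    have : x ∈ c.toSubgraph.neighborSet (Sum.inl ()) := by
      rw [hn]
      exact Or.inl rfl
    exact this
  have hy : c.toSubgraph.Adj (Sum.inl ()) y := by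
    have : y ∈ c.toSubgraph.neighborSet (Sum.inl ()) := by
      rw [hn]
      exact Or.inr rfl
    exact this
  have hx' := c.toSubgraph.adj_sub hx
  have hy' := c.toSubgraph.adj_sub hy
  rcases x with x | ⟨i, a⟩
  · exact odg_ll _ _ hx'
  rcases y with y | ⟨j, b⟩
  · exact odg_ll _ _ hy'
  rw [odg_lr] at hx' hy'
  simp only at hx' hy'
  have hab : a = b := Fin.ext (hx'.trans hy'.symm)
  subst hab
  have hij : i ≠ j := fun h => hxy (by rw [h])
  obtain ⟨f, f0, f1, f2⟩ : ∃ f : ℕ → Unit ⊕ (Fin (2 * e + 3) × Fin (2 * e + 5)),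
      f 0 = Sum.inr (i, a) ∧ f 1 = Sum.inl () ∧ f 2 = Sum.inr (j, a) :=
    ⟨fun k => if k = 0 then Sum.inr (i, a) else if k = 1 then Sum.inl () else Sum.inr (j, a),
      rfl, rfl, rfl⟩
  refine sep_core (odg e) 2 le_rfl f {z | ∃ t, z = Sum.inr (i, t)} ?_ ⟨a, f0⟩ ?_ ?_ w c hc ?_
  · intro k l hk hl h
    interval_cases k <;> interval_cases l <;> simp_all
  · rintro ⟨t, ht⟩
    rw [f2] at ht
    simp only [Sum.inr.injEq, Prod.mk.injEq] at ht
    exact hij ht.1.symm
  · rintro u v ⟨t, rfl⟩ hv _ hv' huv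
    rcases v with v | ⟨k, t'⟩
    · exact hv' 1 (by omega) (by omega) f1
    · rw [odg_rr] at huv
      obtain rfl : i = k := huv.1
      exact hv ⟨t', rfl⟩
  · intro k hk
    interval_cases k
    · rw [f0, f1]
      exact hx.symm
    · rw [f1, f2]
      exact hy

end Pool.Agent.Q239.PC
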