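import Pool.Agent.Q239.PC.CL

set_option autoImplicit false

namespace Pool.Agent.Q239.PC

open SimpleGraph

/-- in a graph that is connected outside `X` two vertices are joined by a path outside `X` -/
theorem avoid {V : Type} {G : SimpleGraph V} {X : Set V} (h : (G.induce Xᶜ).Connected) {u v : V}
    (hu : u ∉ X) (hv : v ∉ X) : ∃ q : G.Walk u v, q.IsPath ∧ ∀ x ∈ q.support, x ∉ X := by
  obtain ⟨q, hq⟩ := (h.preconnected ⟨u, hu⟩ ⟨v, hv⟩).exists_isPath
  let φ : G.induce Xᶜ ↪g G := Embedding.induce Xᶜ
  refine ⟨q.map φ.toHom, Walk.IsPath.map φ.injective hq, ?_⟩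
  intro x hx
  have hx' : x ∈ q.support.map φ.toHom := by
    have e := Walk.support_map φ.toHom q
    rw [← e]
    exact hx
  obtain ⟨y, _, rfl⟩ := List.mem_map.1 hx'
  exact y.2

theorem support_ncard {V : Type} {G : SimpleGraph V} {u v : V} {p : G.Walk u v} (hp : p.IsPath) :
    {x | x ∈ p.support}.ncard = p.length + 1 := by
  classical
  have : {x | x ∈ p.support} = (p.support.toFinset : Set V) := by
    ext x
    simp
  rw [this, Set.ncard_coe_finset, List.toFinset_card_of_nodup hp.support_nodup,
    Walk.length_support]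

theorem ne_of_length {V : Type} {G : SimpleGraph V} {u v : V} {p : G.Walk u v} (hp : p.IsPath)
    (hl : 1 ≤ p.length) : u ≠ v := by
  rintro rfl
  have := Walk.isPath_iff_nil.1 hp
  rw [← Walk.length_eq_zero_iff] at this
  omega

theorem p1 : S_P1 := by
  intro V _ G k hk u v p hp hl hlk
  rcases hk with hk | ⟨_, hk⟩
  · omega
  have huv : u ≠ v := ne_of_length hp (by omega)
  set X : Set V := {x | x ∈ p.support} \ {u, v} with hX
  have hXc : X.ncard = p.length - 1 := by
    have h1 : ({u, v} : Set V) ⊆ {x | x ∈ p.support} := by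
      rintro x (rfl | rfl)
      · exact p.start_mem_support
      · exact p.end_mem_support
    rw [hX, Set.ncard_sdiff h1 (Set.toFinite _), support_ncard hp, Set.ncard_pair huv]
    omega
  obtain ⟨q, hq, hqX⟩ := avoid (hk X (by omega)) (u := v) (v := u) (by simp [hX]) (by simp [hX])
  refine cl V G u v p hp hl q hq fun x hx hx' => ?_
  have := hqX x hx
  by_contra hne
  push Not at hne
  exact this ⟨hx', by simp [hne.1, hne.2]⟩

/-- outside a vertex set of a connected graph with at least two vertices every vertex has a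
neighbour -/
theorem exists_adj_avoid {V : Type} {G : SimpleGraph V} {X : Set V}
    (h : (G.induce Xᶜ).Connected) {u v : V} (hu : u ∉ X) (hv : v ∉ X) (huv : u ≠ v) :
    ∃ w, w ∉ X ∧ G.Adj u w := by
  obtain ⟨q, hq, hqX⟩ := avoid h hu hv
  cases q with
  | nil => exact absurd rfl huv
  | cons hadj q' => exact ⟨_, hqX _ (by simp), hadj⟩

theorem p0 : S_P0 := by
  intro V _ G hk u v p hp hl
  have h2 := hk
  rcases hk with hk | ⟨hc, hk⟩
  · omega
  -- every edge closes
  have key : ∀ u v : V, ∀ h : G.Adj u v, Closes G (Walk.cons h Walk.nil) := by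
    intro u v h
    obtain ⟨z, hz1, hz2⟩ : ∃ z : V, z ≠ u ∧ z ≠ v := by
      by_contra hcon
      push Not at hcon
      have : Fintype.card V ≤ 2 := by
        rw [← Nat.card_eq_fintype_card, ← Set.ncard_univ]
        refine (Set.ncard_le_ncard (t := {u, v}) ?_ (Set.toFinite _)).trans
          (Set.ncard_insert_le _ _ |>.trans (by simp))
        intro z _
        by_cases hz : z = u
        · exact Or.inl hz
        · exact Or.inr (hcon z hz)
      omega
    have hcon := hk {u} (by simp)
    obtain ⟨w, hw, hvw⟩ := exists_adj_avoid hcon (u := v) (v := z) (by simpa using h.ne.symm)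
      (by simpa using hz1) hz2.symm
    have hp2 : (Walk.cons h (Walk.cons hvw Walk.nil)).IsPath := by
      rw [Walk.cons_isPath_iff, Walk.cons_isPath_iff]
      refine ⟨⟨Walk.IsPath.nil, by simpa using hvw.ne⟩, ?_⟩
      have : u ≠ w := fun h => hw (by simp [h])
      simp [h.ne, this]
    obtain ⟨x, c, hc, hle⟩ := p1 V G 2 h2 _ _ _ hp2 (by simp) (by simp)
    refine ⟨x, c, hc, le_trans ?_ hle⟩
    have e : Walk.cons h (Walk.cons hvw Walk.nil) =
        (Walk.cons h Walk.nil).append (Walk.cons hvw Walk.nil) := rfl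
    rw [e, Walk.toSubgraph_append]
    exact le_sup_left
  cases p with
  | nil =>
    -- a vertex
    obtain ⟨z, hz⟩ : ∃ z : V, z ≠ u := by
      by_contra hcon
      push Not at hcon
      have : Fintype.card V ≤ 1 := Fintype.card_le_one_iff.2 fun a b => by rw [hcon a, hcon b]
      omega
    have hcon := hk ∅ (by simp)
    obtain ⟨w, _, huw⟩ := exists_adj_avoid hcon (u := u) (v := z) (by simp) (by simp) hz.symm
    obtain ⟨x, c, hc, hle⟩ := key u w huw
    refine ⟨x, c, hc, ?_⟩
    refine le_trans ?_ hle
    rw [Walk.toSubgraph, singletonSubgraph_le_iff]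
    simp
  | cons h q =>
    cases q with
    | nil => exact key _ _ h
    | cons h' q' => simp at hl

end Pool.Agent.Q239.PC
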