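import Pool.Agent.Q239.PC.P

set_option autoImplicit false

namespace Pool.Agent.Q239.PC

open SimpleGraph

theorem p2 : S_P2 := by
  intro V _ G hr hk u v p hp hl
  rcases hk with hk | ⟨_, hk⟩
  · omega
  have huv : u ≠ v := ne_of_length hp (by omega)
  have hinj : ∀ i j, i ≤ 4 → j ≤ 4 → p.getVert i = p.getVert j → i = j := by
    intro i j hi hj h
    exact hp.getVert_injOn (by simp only [Set.mem_ofPred_eq]; omega)
      (by simp only [Set.mem_ofPred_eq]; omega) h
  have hv0 : p.getVert 0 = u := p.getVert_zero
  have hv4 : p.getVert 4 = v := p.getVert_of_length_le (by omega)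
  set a := p.getVert 1 with ha
  set b := p.getVert 2 with hb
  set c := p.getVert 3 with hc
  have hab : G.Adj a b := p.adj_getVert_succ (by omega)
  have hbc : G.Adj b c := p.adj_getVert_succ (by omega)
  have hac : a ≠ c := fun h => by
    have := hinj 1 3 (by omega) (by omega) h
    omega
  have hua : u ≠ a := fun h => by
    have := hinj 0 1 (by omega) (by omega) (hv0.trans h)
    omega
  have huc : u ≠ c := fun h => by
    have := hinj 0 3 (by omega) (by omega) (hv0.trans h)
    omega
  have hub : u ≠ b := fun h => by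
    have := hinj 0 2 (by omega) (by omega) (hv0.trans h)
    omega
  have hva : v ≠ a := fun h => by
    have := hinj 4 1 (by omega) (by omega) (hv4.trans h)
    omega
  have hvc : v ≠ c := fun h => by
    have := hinj 4 3 (by omega) (by omega) (hv4.trans h)
    omega
  have hvb : v ≠ b := fun h => by
    have := hinj 4 2 (by omega) (by omega) (hv4.trans h)
    omega
  have hcon := hk {a, c} (by rw [Set.ncard_pair hac]; omega)
  obtain ⟨q, hq, hqX⟩ := avoid hcon (u := v) (v := u) (by simp [hva, hvc]) (by simp [hua, huc])
  have hbq : b ∉ q.support := by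
    intro hbq
    obtain ⟨i, hi, hil⟩ := Walk.mem_support_iff_exists_getVert.1 hbq
    have hi0 : i ≠ 0 := by
      rintro rfl
      rw [q.getVert_zero] at hi
      exact hvb hi
    have hil' : i < q.length := by
      refine lt_of_le_of_ne hil ?_
      rintro rfl
      rw [q.getVert_length] at hi
      exact hub hi
    have h2 := hq.neighborSet_toSubgraph_internal hi0 hil'
    have h3 : (q.toSubgraph.neighborSet (q.getVert i)).ncard = 2 :=
      hq.ncard_neighborSet_toSubgraph_internal_eq_two hi0 hil'
    rw [hi] at h2 h3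
    have hsub : {a, c} ∪ q.toSubgraph.neighborSet b ⊆ G.neighborSet b := by
      rintro x ((rfl | rfl) | hx)
      · exact hab.symm
      · exact hbc
      · exact q.toSubgraph.adj_sub hx
    have hdisj : Disjoint ({a, c} : Set V) (q.toSubgraph.neighborSet b) := by
      rw [Set.disjoint_left]
      rintro x hx hx'
      have hxs : x ∈ q.support := by
        rw [← Walk.mem_verts_toSubgraph]
        exact q.toSubgraph.edge_vert (Subgraph.Adj.symm hx')
      exact hqX x hxs hx
    have h4 := Set.ncard_le_ncard hsub (Set.toFinite _)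
    rw [Set.ncard_union_eq hdisj (Set.toFinite _) (Set.toFinite _), Set.ncard_pair hac, h3,
      hr b] at h4
    omega
  refine cl V G u v p hp (by omega) q hq fun x hx hx' => ?_
  obtain ⟨i, hi, hil⟩ := Walk.mem_support_iff_exists_getVert.1 hx'
  have hi4 : i = 0 ∨ i = 1 ∨ i = 2 ∨ i = 3 ∨ i = 4 := by omega
  rcases hi4 with rfl | rfl | rfl | rfl | rfl
  · exact Or.inl (hi ▸ hv0)
  · exact absurd (Or.inl (hi ▸ rfl)) (hqX x hx)
  · refine absurd ?_ hbq
    rw [hb, hi]
    exact hx
  · exact absurd (Or.inr (hi ▸ rfl)) (hqX x hx)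
  · exact Or.inr (hi ▸ hv4)

end Pool.Agent.Q239.PC
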