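import Pool.Agent.Q239.PC.P

set_option autoImplicit false

namespace Pool.Agent.Q239.PC

open SimpleGraph

/-- in a finite graph all of whose degrees are even no edge is a bridge -/
theorem not_bridge {V : Type} [Fintype V] (G : SimpleGraph V)
    (hev : ∀ v, Even (G.neighborSet v).ncard) {u v : V} (h : G.Adj u v) :
    ¬ G.IsBridge s(u, v) := by
  classical
  intro hb
  rw [isBridge_iff] at hb
  set D := G.deleteEdges {s(u, v)} with hD
  let K : SimpleGraph V :=
    { Adj := fun x y => D.Adj x y ∧ D.Reachable u x
      symm := ⟨fun x y hxy => ⟨hxy.1.symm, hxy.2.trans hxy.1.reachable⟩⟩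
      loopless := ⟨fun x hx => hx.1.ne rfl⟩ }
  have hK : ∀ x, Odd (K.degree x) ↔ x = u := by
    intro x
    have e1 : K.degree x = (K.neighborSet x).ncard := by
      rw [← card_neighborSet_eq_degree, Set.ncard_eq_toFinset_card', Set.toFinset_card]
    rw [e1]
    by_cases hx : D.Reachable u x
    · have e2 : K.neighborSet x = G.neighborSet x \ {y | s(x, y) = s(u, v)} := by
        ext y
        simp only [mem_neighborSet, Set.mem_sdiff, Set.mem_ofPred_eq]
        constructor
        · intro hy
          have := hy.1
          rw [hD, deleteEdges_adj] at this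
          exact ⟨this.1, by simpa using this.2⟩
        · intro hy
          refine ⟨?_, hx⟩
          rw [hD, deleteEdges_adj]
          exact ⟨hy.1, by simpa using hy.2⟩
      rw [e2]
      constructor
      · intro hodd
        by_contra hxu
        have hxv : x ≠ v := by
          rintro rfl
          exact hb hx
        have : {y | s(x, y) = s(u, v)} = (∅ : Set V) := by
          ext y
          simp only [Set.mem_ofPred_eq, Set.mem_empty_iff_false, iff_false, Sym2.eq_iff]
          rintro (⟨rfl, _⟩ | ⟨rfl, _⟩)
          · exact hxu rfl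
          · exact hxv rfl
        rw [this, Set.sdiff_empty] at hodd
        exact (Nat.not_even_iff_odd.2 hodd) (hev x)
      · rintro rfl
        have : {y | s(x, y) = s(x, v)} = ({v} : Set V) := by
          ext y
          simp only [Set.mem_ofPred_eq, Set.mem_singleton_iff, Sym2.congr_right]
        rw [this, Set.ncard_sdiff (by simpa using h) (Set.toFinite _), Set.ncard_singleton]
        have h1 := hev x
        have h2 : 0 < (G.neighborSet x).ncard := by
          rw [Set.ncard_pos (Set.toFinite _)]
          exact ⟨v, h⟩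
        obtain ⟨s, hs⟩ := h1
        exact ⟨s - 1, by omega⟩
    · have : K.neighborSet x = ∅ := by
        ext y
        simp only [mem_neighborSet, Set.mem_empty_iff_false, iff_false]
        exact fun hy => hx hy.2
      rw [this, Set.ncard_empty]
      constructor
      · intro h0
        exact absurd h0 (by decide)
      · rintro rfl
        exact absurd (Reachable.refl _) hx
  have h1 := K.even_card_odd_degree_vertices
  have h2 : (Finset.univ.filter fun x => Odd (K.degree x)) = {u} := by
    ext x
    simp [hK]
  rw [h2] at h1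
  simp at h1

theorem edge_closes {V : Type} [Fintype V] (G : SimpleGraph V)
    (hev : ∀ v, Even (G.neighborSet v).ncard) {u v : V} (h : G.Adj u v) :
    ∃ (w : V) (c : G.Walk w w), c.IsCycle ∧ c.toSubgraph.Adj u v := by
  have h1 := not_bridge G hev h
  rw [isBridge_iff_forall_cycle_notMem ((mem_edgeSet G).2 h)] at h1
  push Not at h1
  obtain ⟨w, c, hc, hm⟩ := h1
  refine ⟨w, c, hc, ?_⟩
  rw [← Subgraph.mem_edgeSet, Walk.mem_edges_toSubgraph]
  exact hm

theorem subgraph_le {V : Type} {G : SimpleGraph V} {u v : V} (h : G.Adj u v)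
    (H : G.Subgraph) (hH : H.Adj u v) : (Walk.cons h Walk.nil).toSubgraph ≤ H := by
  rw [Walk.toSubgraph, Walk.toSubgraph, sup_le_iff, singletonSubgraph_le_iff,
    subgraphOfAdj_le_iff]
  exact ⟨hH, H.edge_vert hH.symm⟩

theorem p3 : S_P3 := by
  intro V _ G d hd hd2 hr u v p hp hl
  have hev : ∀ v, Even (G.neighborSet v).ncard := fun v => by rw [hr v]; exact hd
  cases p with
  | nil =>
    have : (G.neighborSet u).Nonempty := by
      rw [← Set.ncard_pos (Set.toFinite _), hr u]
      omega
    obtain ⟨w, hw⟩ := this
    obtain ⟨x, c, hc, hadj⟩ := edge_closes G hev hw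
    refine ⟨x, c, hc, ?_⟩
    rw [Walk.toSubgraph, singletonSubgraph_le_iff]
    exact c.toSubgraph.edge_vert hadj
  | cons h q =>
    cases q with
    | nil =>
      obtain ⟨x, c, hc, hadj⟩ := edge_closes G hev h
      exact ⟨x, c, hc, subgraph_le h _ hadj⟩
    | cons h' q' => simp at hl

/-- a cycle of a `2`-regular graph contains all edges at its vertices -/
theorem cycle_adj {V : Type} [Fintype V] {G : SimpleGraph V} (hr : Reg 2 G) {w : V}
    {c : G.Walk w w} (hc : c.IsCycle) {x y : V} (hx : x ∈ c.support) (hxy : G.Adj x y) :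
    c.toSubgraph.Adj x y := by
  have h1 := hc.ncard_neighborSet_toSubgraph_eq_two hx
  have h2 : c.toSubgraph.neighborSet x = G.neighborSet x :=
    Set.eq_of_subset_of_ncard_le (c.toSubgraph.neighborSet_subset x) (by rw [h1, hr x])
      (Set.toFinite _)
  have : y ∈ c.toSubgraph.neighborSet x := by
    rw [h2]
    exact hxy
  exact this

theorem walk_le {V : Type} [Fintype V] {G : SimpleGraph V} (hr : Reg 2 G) {w : V}
    {c : G.Walk w w} (hc : c.IsCycle) {u v : V} (p : G.Walk u v) (hu : u ∈ c.support) :
    p.toSubgraph ≤ c.toSubgraph := by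
  induction p with
  | nil =>
    rw [Walk.toSubgraph, singletonSubgraph_le_iff, Walk.mem_verts_toSubgraph]
    exact hu
  | cons h q ih =>
    have h1 := cycle_adj hr hc hu h
    rw [Walk.toSubgraph, sup_le_iff]
    refine ⟨(subgraphOfAdj_le_iff h _).2 h1, ih ?_⟩
    rw [← Walk.mem_verts_toSubgraph]
    exact c.toSubgraph.edge_vert h1.symm

theorem p4 : S_P4 := by
  intro V _ G hr u v p hp
  have hev : ∀ v, Even (G.neighborSet v).ncard := fun v => by rw [hr v]; exact even_two
  have : (G.neighborSet u).Nonempty := by
    rw [← Set.ncard_pos (Set.toFinite _), hr u]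
    omega
  obtain ⟨w, hw⟩ := this
  obtain ⟨x, c, hc, hadj⟩ := edge_closes G hev hw
  refine ⟨x, c, hc, walk_le hr hc p ?_⟩
  rw [← Walk.mem_verts_toSubgraph]
  exact c.toSubgraph.edge_vert hadj

end Pool.Agent.Q239.PC
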