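import Pool.Agent.Q239.PC.P

set_option autoImplicit false

namespace Pool.Agent.Q239.PC

open SimpleGraph

/-- `x` and `y` are joined outside `X` -/
def RX {V : Type} (G : SimpleGraph V) (X : Set V) (x y : V) : Prop :=
  Relation.ReflTransGen (fun a b => G.Adj a b ∧ a ∉ X ∧ b ∉ X) x y

theorem RX.rfl {V : Type} {G : SimpleGraph V} {X : Set V} {x : V} : RX G X x x :=
  Relation.ReflTransGen.refl

theorem RX.trans {V : Type} {G : SimpleGraph V} {X : Set V} {x y z : V} (h : RX G X x y)
    (h' : RX G X y z) : RX G X x z := Relation.ReflTransGen.trans h h'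

theorem RX.symm {V : Type} {G : SimpleGraph V} {X : Set V} {x y : V} (h : RX G X x y) :
    RX G X y x := by
  induction h with
  | refl => exact RX.rfl
  | @tail a b _ hab ih =>
    exact (Relation.ReflTransGen.single ⟨hab.1.symm, hab.2.2, hab.2.1⟩ : RX G X b a).trans ih

theorem RX.of_adj {V : Type} {G : SimpleGraph V} {X : Set V} {x y : V} (h : G.Adj x y)
    (hx : x ∉ X) (hy : y ∉ X) : RX G X x y := Relation.ReflTransGen.single ⟨h, hx, hy⟩

theorem connected_of {V : Type} {G : SimpleGraph V} {X : Set V} (x0 : V) (h0 : x0 ∉ X)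
    (h : ∀ y, y ∉ X → RX G X x0 y) : (G.induce Xᶜ).Connected := by
  refine (connected_iff_exists_forall_reachable _).2 ⟨⟨x0, h0⟩, ?_⟩
  rintro ⟨y, hy⟩
  have key : ∀ z, RX G X x0 z → ∀ hz : z ∈ Xᶜ,
      (G.induce Xᶜ).Reachable ⟨x0, h0⟩ ⟨z, hz⟩ := by
    intro z hz
    induction hz with
    | refl => exact fun _ => Reachable.refl _
    | @tail a b _ hab ih =>
      intro hb
      refine (ih hab.2.1).trans (Adj.reachable ?_)
      exact hab.1
  exact key y (h y hy) hy

/-- two vertices with more common neighbours than `X` has elements are joined outside `X` -/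
theorem RX.of_common {V : Type} [Fintype V] {G : SimpleGraph V} {X : Set V} {x y : V}
    (C : Set V) (hC : ∀ z ∈ C, G.Adj x z ∧ G.Adj z y) (hX : X.ncard < C.ncard) (hx : x ∉ X)
    (hy : y ∉ X) : RX G X x y := by
  obtain ⟨z, hz, hzX⟩ := Set.exists_mem_notMem_of_ncard_lt_ncard hX (Set.toFinite _)
  exact (RX.of_adj (hC z hz).1 hx hzX).trans (RX.of_adj (hC z hz).2 hzX hy)

end Pool.Agent.Q239.PC
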