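import Pool.Agent.Q239.PC.RX

set_option autoImplicit false

/-! Generic facts about graphs on a set and some blobs. -/

namespace Pool.Agent.Q239.PC

open SimpleGraph Finset

theorem ncard_sum {T W : Type} (G : SimpleGraph (T ⊕ W)) (v : T ⊕ W) (A : Finset T)
    (B : Finset W) (hA : ∀ t, G.Adj v (Sum.inl t) ↔ t ∈ A)
    (hB : ∀ y, G.Adj v (Sum.inr y) ↔ y ∈ B) : (G.neighborSet v).ncard = A.card + B.card := by
  classical
  have e1 : G.neighborSet v =
      (((A.image Sum.inl) ∪ (B.image Sum.inr) : Finset (T ⊕ W)) : Set (T ⊕ W)) := by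
    ext x
    simp only [mem_neighborSet, coe_union, coe_image, Set.mem_union, Set.mem_image, mem_coe]
    rcases x with x | x
    · rw [hA]
      simp
    · rw [hB]
      simp
  have hd : Disjoint (A.image (Sum.inl : T → T ⊕ W)) (B.image Sum.inr) := by
    rw [Finset.disjoint_left]
    intro x ha hb
    simp only [mem_image] at ha hb
    obtain ⟨_, _, rfl⟩ := ha
    obtain ⟨_, _, hb⟩ := hb
    simp at hb
  rw [e1, Set.ncard_coe_finset, card_union_of_disjoint hd, card_image_of_injective _
    Sum.inl_injective, card_image_of_injective _ Sum.inr_injective]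

/-- the rest of a blob -/
theorem card_blob {b m : ℕ} (i : Fin b) (N : Finset (Fin m)) :
    (Nᶜ.image fun z => (i, z)).card = m - N.card := by
  rw [card_image_of_injective, card_compl, Fintype.card_fin]
  exact fun a b h => congrArg Prod.snd h

/-- one vertex of every blob -/
theorem card_row {b m : ℕ} (z : Fin m) :
    ((univ : Finset (Fin b)).image fun i => (i, z)).card = b := by
  rw [card_image_of_injective, card_univ, Fintype.card_fin]
  exact fun a b h => congrArg Prod.fst h

theorem mem_blob {b m : ℕ} (i : Fin b) (N : Finset (Fin m)) (y : Fin b × Fin m) :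
    y ∈ (Nᶜ.image fun z => (i, z)) ↔ i = y.1 ∧ y.2 ∉ N := by
  simp only [mem_image, mem_compl]
  constructor
  · rintro ⟨z, hz, rfl⟩
    exact ⟨rfl, hz⟩
  · rintro ⟨h1, h2⟩
    exact ⟨y.2, h2, Prod.ext h1 rfl⟩

theorem mem_row {b m : ℕ} (z : Fin m) (y : Fin b × Fin m) :
    y ∈ ((univ : Finset (Fin b)).image fun i => (i, z)) ↔ y.2 = z := by
  simp only [mem_image, mem_univ, true_and]
  constructor
  · rintro ⟨i, rfl⟩
    rfl
  · rintro rfl
    exact ⟨y.1, rfl⟩

end Pool.Agent.Q239.PC
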