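import Pool.Agent.Q239.PC.Def

set_option autoImplicit false

/-! Project PC: the statements of the lemma jobs. -/

namespace Pool.Agent.Q239.PC

open SimpleGraph

/-- job CL: a path whose ends are joined outside its inner vertices closes to a cycle -/
def S_CL : Prop := ∀ (V : Type) (G : SimpleGraph V) (u v : V) (p : G.Walk u v), p.IsPath →
  2 ≤ p.length → ∀ q : G.Walk v u, q.IsPath →
    (∀ x, x ∈ q.support → x ∈ p.support → x = u ∨ x = v) → Closes G p

/-- job SEP: a separating path does not close to a cycle -/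
def S_SEP : Prop := ∀ (V : Type) [Fintype V] (G : SimpleGraph V) (l : ℕ), Sep G l →
  ∃ (u v : V) (p : G.Walk u v), p.IsPath ∧ p.length = l ∧ ¬ Closes G p

/-- job P0: vertices and edges of `2`-connected graphs lie on cycles -/
def S_P0 : Prop := ∀ (V : Type) [Fintype V] (G : SimpleGraph V), KConn 2 G →
  ∀ (u v : V) (p : G.Walk u v), p.IsPath → p.length ≤ 1 → Closes G p

/-- job P1: paths with `2 ≤ l ≤ k` edges in `k`-connected graphs -/
def S_P1 : Prop := ∀ (V : Type) [Fintype V] (G : SimpleGraph V) (k : ℕ), KConn k G →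
  ∀ (u v : V) (p : G.Walk u v), p.IsPath → 2 ≤ p.length → p.length ≤ k → Closes G p

/-- job P2: paths with `4` edges in cubic `3`-connected graphs -/
def S_P2 : Prop := ∀ (V : Type) [Fintype V] (G : SimpleGraph V), Reg 3 G → KConn 3 G →
  ∀ (u v : V) (p : G.Walk u v), p.IsPath → p.length = 4 → Closes G p

/-- job P3: vertices and edges of graphs with even positive degrees lie on cycles -/
def S_P3 : Prop := ∀ (V : Type) [Fintype V] (G : SimpleGraph V) (d : ℕ), Even d → 2 ≤ d →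
  Reg d G → ∀ (u v : V) (p : G.Walk u v), p.IsPath → p.length ≤ 1 → Closes G p

/-- job P4: all paths of `2`-regular graphs close -/
def S_P4 : Prop := ∀ (V : Type) [Fintype V] (G : SimpleGraph V), Reg 2 G →
  ∀ (u v : V) (p : G.Walk u v), p.IsPath → Closes G p

/-- job DEG: degrees `0` and `1` -/
def S_DEG : Prop := S 0 0 = {l | 1 ≤ l} ∧ S 1 0 = {l | 2 ≤ l} ∧ S 1 1 = {l | 2 ≤ l}

/-- job TOR -/
def S_TOR : Prop := ∀ e m : ℕ, Reg (e + 3) (tor e m)

/-- job TOC -/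
def S_TOC : Prop := ∀ e m : ℕ, KConn (e + 3) (tor e m)

/-- job TP -/
def S_TP1 : Prop := ∀ e : ℕ, Sep (tor e 0) (e + 5)

/-- job TP -/
def S_TP2 : Prop := ∀ e t : ℕ, Sep (tor e (t + 1)) (e + t + 6)

/-- job TWR -/
def S_TWR : Prop := ∀ k n : ℕ, 5 ≤ k → k < n → Reg (n - 1) (two k n)

/-- job TWC -/
def S_TWC : Prop := ∀ k n : ℕ, 5 ≤ k → k < n → KConn k (two k n)

/-- job TWP -/
def S_TWP : Prop := ∀ k n : ℕ, 5 ≤ k → k < n → Sep (two k n) (k + 1)

/-- job FOR -/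
def S_FOR : Prop := ∀ n : ℕ, 5 ≤ n → Reg (n - 1) (fou n) ∧ Sep (fou n) 5

/-- job FOC -/
def S_FOC : Prop := ∀ n : ℕ, 5 ≤ n → KConn 4 (fou n)

/-- job TRR -/
def S_TRR : Prop := ∀ e : ℕ, Reg (2 * e + 5) (tro (2 * e + 7)) ∧ Sep (tro (2 * e + 7)) 4 ∧
  Reg (2 * e + 6) (tre (2 * e + 8)) ∧ Sep (tre (2 * e + 8)) 4

/-- job TRC -/
def S_TRC : Prop := ∀ e : ℕ, KConn 3 (tro (2 * e + 7)) ∧ KConn 3 (tre (2 * e + 8))

/-- job BF -/
def S_BF : Prop := Bad 4 3 4

/-- job EDR -/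
def S_EDR : Prop := ∀ e : ℕ, Reg (e + 3) (edg e) ∧ Sep (edg e) 3 ∧ Sep (edg e) 4

/-- job EDC -/
def S_EDC : Prop := ∀ e : ℕ, KConn 2 (edg e)

/-- job EVN -/
def S_EVN : Prop := ∀ e : ℕ, Reg (2 * e + 4) (evn e) ∧ KConn 1 (evn e) ∧ Sep (evn e) 2

/-- job ODG -/
def S_ODG : Prop := ∀ e : ℕ, Reg (2 * e + 3) (odg e) ∧ KConn 1 (odg e)

/-- job ODC: no cycle passes through the central vertex -/
def S_ODC : Prop := ∀ (e : ℕ) (w : Unit ⊕ (Fin (2 * e + 3) × Fin (2 * e + 5)))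
  (c : (odg e).Walk w w), c.IsCycle → Sum.inl () ∉ c.support

end Pool.Agent.Q239.PC
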