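import Pool.Agent.Q239.PC.P

set_option autoImplicit false

namespace Pool.Agent.Q239.PC

open SimpleGraph Finset

theorem natCast_ne {m a b : ℕ} (ha : a < m + 3) (hb : b < m + 3) (hab : a ≠ b) :
    (a : ZMod (m + 3)) ≠ (b : ZMod (m + 3)) := by
  intro h
  have h1 := congrArg ZMod.val h
  rw [ZMod.val_natCast_of_lt ha, ZMod.val_natCast_of_lt hb] at h1
  exact hab h1

theorem one_ne (m : ℕ) : (1 : ZMod (m + 3)) ≠ 0 := by
  have := natCast_ne (m := m) (a := 1) (b := 0) (by omega) (by omega) (by omega)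
  simpa using this

theorem two_ne (m : ℕ) : (1 + 1 : ZMod (m + 3)) ≠ 0 := by
  have := natCast_ne (m := m) (a := 2) (b := 0) (by omega) (by omega) (by omega)
  intro h
  apply this
  push_cast
  rw [← h]
  norm_num

theorem tor_adj {e m : ℕ} (a b : ZMod (m + 3) × Fin (e + 2)) :
    (tor e m).Adj a b ↔ a ≠ b ∧ (a.1 = b.1 ∨ (a.2 = b.2 ∧ (b.1 = a.1 + 1 ∨ a.1 = b.1 + 1))) := by
  rw [tor, fromRel_adj]
  constructor
  · rintro ⟨h, (h1 | ⟨h1, h2⟩) | (h1 | ⟨h1, h2⟩)⟩
    · exact ⟨h, Or.inl h1⟩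
    · exact ⟨h, Or.inr ⟨h1, Or.inl h2⟩⟩
    · exact ⟨h, Or.inl h1.symm⟩
    · exact ⟨h, Or.inr ⟨h1.symm, Or.inr h2⟩⟩
  · rintro ⟨h, h1 | ⟨h1, h2 | h2⟩⟩
    · exact ⟨h, Or.inl (Or.inl h1)⟩
    · exact ⟨h, Or.inl (Or.inr ⟨h1, h2⟩)⟩
    · exact ⟨h, Or.inr (Or.inr ⟨h1.symm, h2⟩)⟩

theorem tor_reg : S_TOR := by
  classical
  rintro e m ⟨i, j⟩
  have h1 : i + 1 ≠ i := fun h => one_ne m (by simpa using h)
  have h2 : i - 1 ≠ i := fun h => one_ne m (by simpa using h)
  have h3 : i + 1 ≠ i - 1 := fun h => two_ne m (by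
    have := congrArg (fun x => x - i + 1) h
    rw [show i - 1 - i + 1 = 0 by ring, show i + 1 - i + 1 = 1 + 1 by ring] at this
    exact this)
  have e1 : (tor e m).neighborSet (i, j) =
      ((insert (i + 1, j) (insert (i - 1, j) ((univ.erase j).image fun j' => (i, j')))
        : Finset (ZMod (m + 3) × Fin (e + 2))) : Set (ZMod (m + 3) × Fin (e + 2))) := by
    ext ⟨x, y⟩
    simp only [mem_neighborSet, tor_adj, coe_insert, coe_image, Set.mem_insert_iff,
      Set.mem_image, mem_coe, mem_erase, mem_univ, and_true, Prod.mk.injEq, ne_eq]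
    constructor
    · rintro ⟨h, h' | ⟨h', h'' | h''⟩⟩
      · subst h'
        exact Or.inr (Or.inr ⟨y, fun hy => h ⟨rfl, hy.symm⟩, rfl, rfl⟩)
      · exact Or.inl ⟨h'', h'.symm⟩
      · refine Or.inr (Or.inl ⟨?_, h'.symm⟩)
        rw [h'']
        ring
    · rintro (⟨rfl, rfl⟩ | ⟨rfl, rfl⟩ | ⟨y', hy', rfl, rfl⟩)
      · exact ⟨fun h => h1 h.1.symm, Or.inr ⟨rfl, Or.inl rfl⟩⟩
      · exact ⟨fun h => h2 h.1.symm, Or.inr ⟨rfl, Or.inr (by ring)⟩⟩
      · exact ⟨fun h => hy' h.2.symm, Or.inl rfl⟩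
  rw [e1, Set.ncard_coe_finset, card_insert_of_notMem, card_insert_of_notMem,
    card_image_of_injective, card_erase_of_mem (mem_univ _), card_univ, Fintype.card_fin]
  · omega
  · intro a b h
    simpa using h
  · simp only [mem_image, mem_erase, mem_univ, and_true, Prod.mk.injEq, not_exists, not_and]
    intro x _ h
    exact absurd h.symm h2
  · simp only [mem_insert, mem_image, mem_erase, mem_univ, and_true, Prod.mk.injEq, not_exists,
      not_and, not_or]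
    refine ⟨fun h => absurd h h3, fun x _ h => absurd h.symm h1⟩

end Pool.Agent.Q239.PC
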