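import Pool.Agent.Q239.PC.RX
import Pool.Agent.Q239.PC.TOR

set_option autoImplicit false

namespace Pool.Agent.Q239.PC

open SimpleGraph

theorem tor_step {e m : ℕ} (i : ZMod (m + 3)) (j : Fin (e + 2)) :
    (tor e m).Adj (i, j) (i + 1, j) := by
  rw [tor_adj]
  exact ⟨fun h => one_ne m (by simpa using (congrArg Prod.fst h).symm), Or.inr ⟨rfl, Or.inl rfl⟩⟩

theorem tor_row {e m : ℕ} (i : ZMod (m + 3)) {j j' : Fin (e + 2)} (h : j ≠ j') :
    (tor e m).Adj (i, j) (i, j') := by
  rw [tor_adj]
  exact ⟨fun h' => h (congrArg Prod.snd h'), Or.inl rfl⟩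

/-- moving up in a column -/
theorem tor_up {e m : ℕ} {X : Set (ZMod (m + 3) × Fin (e + 2))} (i : ZMod (m + 3))
    (j : Fin (e + 2)) (k : ℕ) (h : ∀ s, s ≤ k → (i + (s : ZMod (m + 3)), j) ∉ X) :
    RX (tor e m) X (i, j) (i + (k : ZMod (m + 3)), j) := by
  induction k with
  | zero => simpa using RX.rfl
  | succ k ih =>
    refine (ih fun s hs => h s (by omega)).trans ?_
    have h1 := tor_step (m := m) (i + (k : ZMod (m + 3))) j
    have e1 : i + (k : ZMod (m + 3)) + 1 = i + ((k + 1 : ℕ) : ZMod (m + 3)) := by
      push_cast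
      ring
    rw [e1] at h1
    exact RX.of_adj h1 (h k (by omega)) (h (k + 1) le_rfl)

theorem toc : S_TOC := by
  classical
  intro e m
  refine Or.inr ⟨?_, fun X hX => ?_⟩
  · rw [Fintype.card_prod, ZMod.card, Fintype.card_fin]
    nlinarith
  by_cases hcol : ∃ j0 : Fin (e + 2), ∀ i : ZMod (m + 3), (i, j0) ∉ X
  · obtain ⟨j0, hj0⟩ := hcol
    have hc : ∀ i : ZMod (m + 3), RX (tor e m) X (0, j0) (i, j0) := by
      intro i
      have := tor_up (X := X) (0 : ZMod (m + 3)) j0 i.val fun s _ => hj0 _
      simpa using this
    refine connected_of (0, j0) (hj0 0) ?_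
    rintro ⟨i, j⟩ hy
    refine (hc i).trans ?_
    by_cases h : j0 = j
    · subst h
      exact RX.rfl
    · exact RX.of_adj (tor_row i h) (hj0 i) hy
  · push Not at hcol
    choose x hx using hcol
    -- exactly one element in every column
    have hX' : X = Set.range fun j => (x j, j) := by
      symm
      refine Set.eq_of_subset_of_ncard_le ?_ ?_ (Set.toFinite _)
      · rintro _ ⟨j, rfl⟩
        exact hx j
      · have hinj : Function.Injective fun j : Fin (e + 2) => (x j, j) :=
          fun a b h => congrArg Prod.snd h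
        rw [← Set.image_univ, Set.ncard_image_of_injective _ hinj, Set.ncard_univ,
          Nat.card_eq_fintype_card, Fintype.card_fin]
        omega
    have hmem : ∀ i j, (i, j) ∈ X ↔ i = x j := by
      intro i j
      rw [hX']
      constructor
      · rintro ⟨j', h⟩
        obtain rfl : j' = j := congrArg Prod.snd h
        exact (congrArg Prod.fst h).symm
      · rintro rfl
        exact ⟨j, rfl⟩
    have hcon : ∀ j i, i ≠ x j → RX (tor e m) X (x j + 1, j) (i, j) := by
      intro j i hi
      set k := (i - x j - 1).val with hk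
      have hk1 : k < m + 3 := ZMod.val_lt _
      have hk2 : (k : ZMod (m + 3)) = i - x j - 1 := ZMod.natCast_zmod_val _
      have hk3 : k ≠ m + 2 := by
        intro h
        apply hi
        have h1 : ((m + 3 : ℕ) : ZMod (m + 3)) = 0 := ZMod.natCast_self _
        have h2 : (k : ZMod (m + 3)) + 1 = 0 := by
          rw [h, ← h1]
          push_cast
          ring
        rw [hk2] at h2
        have h3 : i = (i - x j - 1 + 1) + x j := by ring
        rw [h3, h2, zero_add]
      have h1 := tor_up (X := X) (x j + 1) j k fun s hs => by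
        rw [hmem]
        intro h
        have h2 : ((s + 1 : ℕ) : ZMod (m + 3)) ≠ ((0 : ℕ) : ZMod (m + 3)) :=
          natCast_ne (by omega) (by omega) (by omega)
        apply h2
        push_cast
        have := congrArg (fun y => y - x j) h
        simp only [sub_self] at this
        rw [← this]
        ring
      have e1 : x j + 1 + (k : ZMod (m + 3)) = i := by
        rw [hk2]
        ring
      rwa [e1] at h1
    have hcol2 : ∀ j j' i i', i ≠ x j → i' ≠ x j' → RX (tor e m) X (i, j) (i', j') := by
      intro j j' i i' hi hi'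
      obtain ⟨t, ht1, ht2⟩ : ∃ t : ZMod (m + 3), t ≠ x j ∧ t ≠ x j' := by
        by_contra hcon'
        push Not at hcon'
        have : Fintype.card (ZMod (m + 3)) ≤ 2 := by
          rw [← Nat.card_eq_fintype_card, ← Set.ncard_univ]
          refine (Set.ncard_le_ncard (t := {x j, x j'}) ?_ (Set.toFinite _)).trans
            (Set.ncard_insert_le _ _ |>.trans (by simp))
          intro z _
          by_cases hz : z = x j
          · exact Or.inl hz
          · exact Or.inr (hcon' z hz)
        rw [ZMod.card] at this
        omega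
      have a1 := (hcon j i hi).symm.trans (hcon j t ht1)
      have a2 := (hcon j' t ht2).symm.trans (hcon j' i' hi')
      refine a1.trans (RX.trans ?_ a2)
      by_cases h : j = j'
      · subst h
        exact RX.rfl
      · exact RX.of_adj (tor_row t h) (by rwa [hmem]) (by rwa [hmem])
    have h0 : x 0 + 1 ≠ x 0 := fun h => one_ne m (by simpa using h)
    refine connected_of (x 0 + 1, 0) (by rwa [hmem]) ?_
    rintro ⟨i, j⟩ hy
    rw [hmem] at hy
    exact hcol2 0 j _ i h0 hy

end Pool.Agent.Q239.PC
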