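import Pool.Agent.Q239.PC.TOC

set_option autoImplicit false

namespace Pool.Agent.Q239.PC

open SimpleGraph

/-- the column with number `k` -/
def fi (e k : ℕ) : Fin (e + 2) := ⟨k % (e + 2), Nat.mod_lt _ (by omega)⟩

theorem fi_val {e k : ℕ} (h : k ≤ e + 1) : ((fi e k : Fin (e + 2)) : ℕ) = k :=
  Nat.mod_eq_of_lt (by omega)

/-- the height with number `k` -/
def zi (m k : ℕ) : ZMod (m + 3) := (k : ZMod (m + 3))

theorem zi_val {m k : ℕ} (h : k ≤ m + 2) : (zi m k).val = k :=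
  ZMod.val_natCast_of_lt (by omega)

theorem val_step {m : ℕ} (a b : ZMod (m + 3)) : b = a + 1 ↔
    (b.val = a.val + 1 ∨ (a.val = m + 2 ∧ b.val = 0)) := by
  have ha : a.val < m + 3 := ZMod.val_lt a
  have hb : b.val < m + 3 := ZMod.val_lt b
  have e1 : (a + 1).val = (a.val + 1) % (m + 3) := by
    rw [ZMod.val_add]
    have : (1 : ZMod (m + 3)).val = 1 := by
      have := zi_val (m := m) (k := 1) (by omega)
      simpa [zi] using this
    rw [this]
  have e2 : b = a + 1 ↔ b.val = (a + 1).val :=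
    ⟨fun h => by rw [h], fun h => ZMod.val_injective _ h⟩
  rw [e2, e1]
  by_cases h : a.val = m + 2
  · have h3 : (a.val + 1) % (m + 3) = 0 := by
      rw [h]
      exact Nat.mod_self _
    rw [h3]
    omega
  · rw [Nat.mod_eq_of_lt (by omega)]
    omega

theorem tor_adj_val {e m : ℕ} (a b : ZMod (m + 3) × Fin (e + 2)) :
    (tor e m).Adj a b ↔ (a.1.val = b.1.val ∧ (a.2 : ℕ) ≠ b.2) ∨ ((a.2 : ℕ) = b.2 ∧
      (b.1.val = a.1.val + 1 ∨ (a.1.val = m + 2 ∧ b.1.val = 0) ∨
       a.1.val = b.1.val + 1 ∨ (b.1.val = m + 2 ∧ a.1.val = 0))) := by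
  rw [tor_adj, val_step, val_step]
  have e1 : a.1 = b.1 ↔ a.1.val = b.1.val :=
    ⟨fun h => by rw [h], fun h => ZMod.val_injective _ h⟩
  have e2 : a ≠ b ↔ ¬ (a.1.val = b.1.val ∧ (a.2 : ℕ) = b.2) := by
    rw [ne_eq, Prod.ext_iff, e1, Fin.ext_iff]
  rw [e2, e1, Fin.ext_iff]
  omega

/-- a separating path around the vertex `(0, 0)`, given by heights and columns -/
theorem sep_tor (e m l : ℕ) (x y : ℕ → ℕ) (hl : 2 ≤ l)
    (hx : ∀ i, i ≤ l → x i ≤ m + 2) (hy : ∀ i, i ≤ l → y i ≤ e + 1)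
    (hinj : ∀ i j, i ≤ l → j ≤ l → x i = x j → y i = y j → i = j)
    (hadj : ∀ i, i < l → (x i = x (i + 1) ∧ y i ≠ y (i + 1)) ∨ (y i = y (i + 1) ∧
      (x (i + 1) = x i + 1 ∨ (x i = m + 2 ∧ x (i + 1) = 0) ∨
       x i = x (i + 1) + 1 ∨ (x (i + 1) = m + 2 ∧ x i = 0))))
    (hx0 : x 0 = 0) (hy0 : y 0 = 0)
    (h1 : ∀ b, 1 ≤ b → b ≤ e + 1 → ∃ i, 0 < i ∧ i < l ∧ x i = 0 ∧ y i = b)
    (h2 : ∃ i, 0 < i ∧ i < l ∧ x i = 1 ∧ y i = 0)
    (h3 : ∃ i, 0 < i ∧ i < l ∧ x i = m + 2 ∧ y i = 0) : Sep (tor e m) l := by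
  set f : ℕ → ZMod (m + 3) × Fin (e + 2) := fun i => (zi m (x i), fi e (y i)) with hf
  have f1 : ∀ i, i ≤ l → (f i).1.val = x i := fun i hi => zi_val (hx i hi)
  have f2 : ∀ i, i ≤ l → ((f i).2 : ℕ) = y i := fun i hi => fi_val (hy i hi)
  refine ⟨hl, f, {f 0}, ?_, ?_, rfl, ?_, ?_⟩
  · intro i j hi hj hij
    refine hinj i j hi hj ?_ ?_
    · rw [← f1 i hi, ← f1 j hj, hij]
    · rw [← f2 i hi, ← f2 j hj, hij]
  · intro i hi
    rw [tor_adj_val, f1 i hi.le, f2 i hi.le, f1 (i + 1) hi, f2 (i + 1) hi]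
    exact hadj i hi
  · intro h
    rw [Set.mem_singleton_iff] at h
    have := hinj l 0 le_rfl (by omega) (by rw [← f1 l le_rfl, ← f1 0 (by omega), h])
      (by rw [← f2 l le_rfl, ← f2 0 (by omega), h])
    omega
  · rintro a b rfl _ _ hb' hab
    rw [tor_adj_val, f1 0 (by omega), f2 0 (by omega), hx0, hy0] at hab
    have hv1 : b.1.val < m + 3 := ZMod.val_lt _
    have hv2 : (b.2 : ℕ) < e + 2 := b.2.2
    have key : ∀ i, 0 < i → i < l → x i = b.1.val → y i ≠ (b.2 : ℕ) := by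
      intro i h0 h1 ha hb
      apply hb' i h0 h1
      refine Prod.ext (ZMod.val_injective _ ?_) (Fin.ext ?_)
      · rw [f1 i h1.le, ha]
      · rw [f2 i h1.le, hb]
    rcases hab with ⟨hab, hab'⟩ | ⟨hab, hab' | hab' | hab' | hab'⟩
    · obtain ⟨i, h4, h5, h6, h7⟩ := h1 b.2 (by omega) (by omega)
      exact key i h4 h5 (by omega) h7
    · obtain ⟨i, h4, h5, h6, h7⟩ := h2
      exact key i h4 h5 (by omega) (by omega)
    · omega
    · omega
    · obtain ⟨i, h4, h5, h6, h7⟩ := h3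
      exact key i h4 h5 (by omega) (by omega)

theorem tp1 : S_TP1 := by
  intro e
  set x : ℕ → ℕ := fun i => if i = 0 then 0 else if i = 1 then 1 else if i ≤ 3 then 2 else
    if i ≤ e + 4 then 0 else 1 with hx
  set y : ℕ → ℕ := fun i => if i ≤ 2 then 0 else if i = 3 then 1 else
    if i ≤ e + 4 then i - 3 else e + 1 with hy
  refine sep_tor e 0 (e + 5) x y (by omega) ?_ ?_ ?_ ?_ rfl rfl ?_ ?_ ?_
  · intro i _
    simp only [hx]
    split_ifs <;> omega
  · intro i _
    simp only [hy]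
    split_ifs <;> omega
  · intro i j hi hj h1 h2
    simp only [hx] at h1
    simp only [hy] at h2
    split_ifs at h1 h2 <;> omega
  · intro i hi
    simp only [hx, hy]
    split_ifs <;> first | omega | contradiction
  · intro b h1 h2
    refine ⟨b + 3, by omega, by omega, ?_, ?_⟩
    · simp only [hx]
      split_ifs <;> omega
    · simp only [hy]
      split_ifs <;> omega
  · refine ⟨1, by omega, by omega, ?_, ?_⟩
    · simp only [hx]
      split_ifs <;> omega
    · simp only [hy]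
      split_ifs <;> omega
  · refine ⟨2, by omega, by omega, ?_, ?_⟩
    · simp only [hx]
      split_ifs <;> omega
    · simp only [hy]
      split_ifs <;> omega

theorem tp2 : S_TP2 := by
  intro e t
  set x : ℕ → ℕ := fun i => if i = 0 then 0 else if i ≤ 2 then 1 else if i ≤ e + 3 then 0 else
    if i = e + 4 then t + 3 else t + 4 + (e + 4) - i with hx
  set y : ℕ → ℕ := fun i => if i ≤ 1 then 0 else if i = 2 then 1 else if i ≤ e + 3 then i - 2 else
    if i = e + 4 then e + 1 else 0 with hy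
  refine sep_tor e (t + 1) (e + t + 6) x y (by omega) ?_ ?_ ?_ ?_ rfl rfl ?_ ?_ ?_
  · intro i _
    simp only [hx]
    split_ifs <;> omega
  · intro i _
    simp only [hy]
    split_ifs <;> omega
  · intro i j hi hj h1 h2
    simp only [hx] at h1
    simp only [hy] at h2
    split_ifs at h1 h2 <;> omega
  · intro i hi
    simp only [hx, hy]
    split_ifs <;> first | omega | contradiction
  · intro b h1 h2
    refine ⟨b + 2, by omega, by omega, ?_, ?_⟩
    · simp only [hx]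
      split_ifs <;> omega
    · simp only [hy]
      split_ifs <;> omega
  · refine ⟨1, by omega, by omega, ?_, ?_⟩
    · simp only [hx]
      split_ifs <;> omega
    · simp only [hy]
      split_ifs <;> omega
  · refine ⟨e + 5, by omega, by omega, ?_, ?_⟩
    · simp only [hx]
      split_ifs <;> omega
    · simp only [hy]
      split_ifs <;> omega

end Pool.Agent.Q239.PC
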