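import Pool.Agent.Q239.PC.TR1

set_option autoImplicit false

namespace Pool.Agent.Q239.PC

open SimpleGraph Finset

theorem sep_tr {n : ℕ} (hn : 7 ≤ n) (G : SimpleGraph (Fin n × Bool))
    (h1 : ∀ a b : Fin n, ((a : ℕ) = 4 ∧ (b : ℕ) = 0) ∨ ((a : ℕ) = 0 ∧ (b : ℕ) = 1) ∨
      ((a : ℕ) = 1 ∧ (b : ℕ) = 2) → G.Adj (a, false) (b, false))
    (h2 : ∀ a b : Fin n, (a : ℕ) = 2 → (b : ℕ) = 2 → G.Adj (a, false) (b, true))
    (h3 : ∀ a b : Fin n, G.Adj (a, false) (b, true) → (a : ℕ) < 3) : Sep G 4 := by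
  obtain ⟨x, h00, h01, h02, h03⟩ : ∃ x : ℕ → ℕ, x 0 = 4 ∧ x 1 = 0 ∧ x 2 = 1 ∧ x 3 = 2 :=
    ⟨fun i => if i = 0 then 4 else if i = 1 then 0 else if i = 2 then 1 else 2, rfl, rfl, rfl,
      rfl⟩
  refine sep_two (l := 4) _ (by omega) x 2 ?_ (by omega) (by omega) ?_ ?_ ?_ ?_
  · intro i hi
    interval_cases i <;> omega
  · intro i j hi hj h
    interval_cases i <;> interval_cases j <;> omega
  · intro i hi a b ha hb
    apply h1
    have : i < 3 := by omega
    interval_cases i <;> simp only [zero_add, Nat.reduceAdd] at hb <;> omega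
  · intro a b ha hb
    simp only [Nat.reduceSub] at ha
    exact h2 a b (by omega) hb
  · intro a b hab
    have h := h3 a b hab
    obtain ⟨c, hc⟩ : ∃ c : ℕ, c = a := ⟨_, rfl⟩
    rw [← hc] at h ⊢
    interval_cases c
    · exact ⟨1, by omega, by omega, h01⟩
    · exact ⟨2, by omega, by omega, h02⟩
    · exact ⟨3, by omega, by omega, h03⟩

theorem trr : S_TRR := by
  intro e
  refine ⟨tro_reg e, ?_, tre_reg e, ?_⟩
  · refine sep_tr (by omega) _ ?_ ?_ ?_
    · intro a b h
      rw [tro_same]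
      rcases h with h | h | h
      · rw [h.1, h.2, fo4]
        omega
      · rw [h.1, h.2, fo0]
        omega
      · rw [h.1, h.2, fo1]
        omega
    · intro a b ha hb
      have h := (tro_cross a b false).2
      rw [Bool.not_false] at h
      exact h (by omega)
    · intro a b hab
      have h := (tro_cross a b false).1
      rw [Bool.not_false] at h
      exact (h hab).2
  · refine sep_tr (by omega) _ ?_ ?_ ?_
    · intro a b h
      rw [tre_same]
      rcases h with h | h | h
      · rw [h.1, h.2, fe4]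
        omega
      · rw [h.1, h.2, fe0]
        omega
      · rw [h.1, h.2, fe1]
        omega
    · intro a b ha hb
      have h := (tre_cross a b false).2
      rw [Bool.not_false, xe] at h
      exact h (by omega)
    · intro a b hab
      have h := (tre_cross a b false).1
      rw [Bool.not_false, xe] at h
      have := h hab
      omega

/-- deleted pairs of `tro` leave enough common neighbours -/
theorem tro_common (e : ℕ) (c : ℕ) (hc : c ≤ 2) (i j : Fin (2 * e + 7)) (hij : fo i j) :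
    ∃ N : Finset (Fin (2 * e + 7)), N.card + c < 2 * e + 7 ∧ ∀ z : Fin (2 * e + 7), z ∉ N →
      (z : ℕ) ≠ i ∧ (z : ℕ) ≠ j ∧ ¬ (fo i z ∨ fo z i) ∧ ¬ (fo j z ∨ fo z j) := by
  classical
  rw [fo] at hij
  have hj2 := j.2
  rcases hij with h | h | h | h | h | h
  · obtain ⟨a, ha⟩ := ex_fin (n := 2 * e + 7) 3 (by omega)
    obtain ⟨b, hb⟩ := ex_fin (n := 2 * e + 7) 6 (by omega)
    refine ⟨{i, j, a, b}, ?_, fun z hz => ?_⟩
    · have : ({i, j, a, b} : Finset (Fin (2 * e + 7))).card ≤ 4 := card_le_four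
      omega
    · simp only [mem_insert, mem_singleton, not_or, Fin.ext_iff] at hz
      rw [h.1, h.2, fo0, fo2]
      omega
  · obtain ⟨a, ha⟩ := ex_fin (n := 2 * e + 7) 2 (by omega)
    refine ⟨{i, j, a}, ?_, fun z hz => ?_⟩
    · have : ({i, j, a} : Finset (Fin (2 * e + 7))).card ≤ 3 := card_le_three
      omega
    · simp only [mem_insert, mem_singleton, not_or, Fin.ext_iff] at hz
      rw [h.1, h.2, fo0, fo3]
      omega
  · obtain ⟨a, ha⟩ := ex_fin (n := 2 * e + 7) 5 (by omega)
    refine ⟨{i, j, a}, ?_, fun z hz => ?_⟩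
    · have : ({i, j, a} : Finset (Fin (2 * e + 7))).card ≤ 3 := card_le_three
      omega
    · simp only [mem_insert, mem_singleton, not_or, Fin.ext_iff] at hz
      rw [h.1, h.2, fo1, fo4]
      omega
  · obtain ⟨a, ha⟩ := ex_fin (n := 2 * e + 7) 4 (by omega)
    refine ⟨{i, j, a}, ?_, fun z hz => ?_⟩
    · have : ({i, j, a} : Finset (Fin (2 * e + 7))).card ≤ 3 := card_le_three
      omega
    · simp only [mem_insert, mem_singleton, not_or, Fin.ext_iff] at hz
      rw [h.1, h.2, fo1, fo5]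
      omega
  · obtain ⟨a, ha⟩ := ex_fin (n := 2 * e + 7) 0 (by omega)
    refine ⟨{i, j, a}, ?_, fun z hz => ?_⟩
    · have : ({i, j, a} : Finset (Fin (2 * e + 7))).card ≤ 3 := card_le_three
      omega
    · simp only [mem_insert, mem_singleton, not_or, Fin.ext_iff] at hz
      rw [h.1, h.2, fo2, fo6]
      omega
  · refine ⟨{i, j}, ?_, fun z hz => ?_⟩
    · have : ({i, j} : Finset (Fin (2 * e + 7))).card ≤ 2 := card_le_two
      omega
    · simp only [mem_insert, mem_singleton, not_or, Fin.ext_iff] at hz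
      rw [fo7 i z h.1 h.2.1, fo8 j z (by omega) (by omega)]
      omega

/-- deleted pairs of `tre` leave enough common neighbours -/
theorem tre_common (e : ℕ) (c : ℕ) (hc : c ≤ 2) (i j : Fin (2 * e + 8)) (hij : fe i j) :
    ∃ N : Finset (Fin (2 * e + 8)), N.card + c < 2 * e + 8 ∧ ∀ z : Fin (2 * e + 8), z ∉ N →
      (z : ℕ) ≠ i ∧ (z : ℕ) ≠ j ∧ ¬ (fe i z ∨ fe z i) ∧ ¬ (fe j z ∨ fe z j) := by
  classical
  rw [fe] at hij
  have hj2 := j.2
  rcases hij with h | h | h | h | h | h | h
  · obtain ⟨a, ha⟩ := ex_fin (n := 2 * e + 8) 3 (by omega)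
    obtain ⟨b, hb⟩ := ex_fin (n := 2 * e + 8) 6 (by omega)
    obtain ⟨c, hc⟩ := ex_fin (n := 2 * e + 8) 7 (by omega)
    refine ⟨{i, j, a, b, c}, ?_, fun z hz => ?_⟩
    · have : ({i, j, a, b, c} : Finset (Fin (2 * e + 8))).card ≤ 5 := card_le_five
      omega
    · simp only [mem_insert, mem_singleton, not_or, Fin.ext_iff] at hz
      rw [h.1, h.2, fe0, fe2]
      omega
  · obtain ⟨a, ha⟩ := ex_fin (n := 2 * e + 8) 2 (by omega)
    refine ⟨{i, j, a}, ?_, fun z hz => ?_⟩
    · have : ({i, j, a} : Finset (Fin (2 * e + 8))).card ≤ 3 := card_le_three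
      omega
    · simp only [mem_insert, mem_singleton, not_or, Fin.ext_iff] at hz
      rw [h.1, h.2, fe0, fe3]
      omega
  · obtain ⟨a, ha⟩ := ex_fin (n := 2 * e + 8) 5 (by omega)
    refine ⟨{i, j, a}, ?_, fun z hz => ?_⟩
    · have : ({i, j, a} : Finset (Fin (2 * e + 8))).card ≤ 3 := card_le_three
      omega
    · simp only [mem_insert, mem_singleton, not_or, Fin.ext_iff] at hz
      rw [h.1, h.2, fe1, fe4]
      omega
  · obtain ⟨a, ha⟩ := ex_fin (n := 2 * e + 8) 4 (by omega)
    refine ⟨{i, j, a}, ?_, fun z hz => ?_⟩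
    · have : ({i, j, a} : Finset (Fin (2 * e + 8))).card ≤ 3 := card_le_three
      omega
    · simp only [mem_insert, mem_singleton, not_or, Fin.ext_iff] at hz
      rw [h.1, h.2, fe1, fe5]
      omega
  · obtain ⟨a, ha⟩ := ex_fin (n := 2 * e + 8) 0 (by omega)
    obtain ⟨b, hb⟩ := ex_fin (n := 2 * e + 8) 7 (by omega)
    refine ⟨{i, j, a, b}, ?_, fun z hz => ?_⟩
    · have : ({i, j, a, b} : Finset (Fin (2 * e + 8))).card ≤ 4 := card_le_four
      omega
    · simp only [mem_insert, mem_singleton, not_or, Fin.ext_iff] at hz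
      rw [h.1, h.2, fe2, fe6]
      omega
  · obtain ⟨a, ha⟩ := ex_fin (n := 2 * e + 8) 0 (by omega)
    obtain ⟨b, hb⟩ := ex_fin (n := 2 * e + 8) 6 (by omega)
    refine ⟨{i, j, a, b}, ?_, fun z hz => ?_⟩
    · have : ({i, j, a, b} : Finset (Fin (2 * e + 8))).card ≤ 4 := card_le_four
      omega
    · simp only [mem_insert, mem_singleton, not_or, Fin.ext_iff] at hz
      rw [h.1, h.2, fe2, fe7]
      omega
  · refine ⟨{i, j}, ?_, fun z hz => ?_⟩
    · have : ({i, j} : Finset (Fin (2 * e + 8))).card ≤ 2 := card_le_two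
      omega
    · simp only [mem_insert, mem_singleton, not_or, Fin.ext_iff] at hz
      rw [fe8 i z h.1 h.2.1, fe9 j z (by omega) (by omega)]
      omega

theorem trc : S_TRC := by
  classical
  intro e
  constructor
  · refine Or.inr ⟨?_, fun X hX => ?_⟩
    · rw [Fintype.card_prod, Fintype.card_fin, Fintype.card_bool]
      omega
    refine conn_two ?_ ?_
    · exact pair_of _ fo tro_same X (fun i j hij => tro_common e _ (by omega) i j hij)
    · obtain ⟨i, h1, h2⟩ := exists_cross (k := 3) X (fun i => ⟨i, by omega⟩)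
        (fun i => ⟨i, by omega⟩) (fun a b h => by simpa [Fin.ext_iff] using h)
        (fun a b h => by simpa [Fin.ext_iff] using h) hX
      refine ⟨_, _, h1, h2, ?_⟩
      have h := (tro_cross (n := 2 * e + 7) ⟨i, by omega⟩ ⟨i, by omega⟩ false).2
      rw [Bool.not_false] at h
      exact h ⟨rfl, i.2⟩
  · refine Or.inr ⟨?_, fun X hX => ?_⟩
    · rw [Fintype.card_prod, Fintype.card_fin, Fintype.card_bool]
      omega
    refine conn_two ?_ ?_
    · exact pair_of _ fe tre_same X (fun i j hij => tre_common e _ (by omega) i j hij)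
    · have hb : ∀ i : Fin 3, (if (i : ℕ) = 0 then 0 else 3 - (i : ℕ)) < 2 * e + 8 := by
        intro i
        split_ifs <;> omega
      obtain ⟨i, h1, h2⟩ := exists_cross (k := 3) X (fun i => ⟨i, by omega⟩)
        (fun i => ⟨_, hb i⟩) (fun a b h => by simpa [Fin.ext_iff] using h)
        (fun a b h => by
          have ha := a.2
          have hb := b.2
          rw [Fin.mk.injEq] at h
          rw [Fin.ext_iff]
          split_ifs at h <;> omega) hX
      refine ⟨_, _, h1, h2, ?_⟩
      have h := (tre_cross (n := 2 * e + 8) ⟨i, by omega⟩ ⟨_, hb i⟩ false).2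
      rw [Bool.not_false] at h
      refine h ?_
      have hi := i.2
      have hc : (i : ℕ) = 0 ∨ (i : ℕ) = 1 ∨ (i : ℕ) = 2 := by omega
      simp only
      rcases hc with hc | hc | hc
      · rw [hc, xe0]
        rfl
      · rw [hc, xe1]
        rfl
      · rw [hc, xe2]
        exact Or.inl rfl

end Pool.Agent.Q239.PC
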