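import Pool.Agent.Q239.PC.FO

set_option autoImplicit false

namespace Pool.Agent.Q239.PC

open SimpleGraph Finset

theorem reg_of' {n : ℕ} (r : ℕ) (G : SimpleGraph (Fin n × Bool))
    (h : ∀ (i : Fin n) (s : Bool), ∃ N C : Finset (Fin n), N.card = C.card + r ∧
      (∀ j, G.Adj (i, s) (j, s) ↔ j ∉ N) ∧ (∀ j, G.Adj (i, s) (j, !s) ↔ j ∈ C)) :
    Reg (n - r) G := by
  classical
  rintro ⟨i, s⟩
  obtain ⟨N, C, h1, h2, h3⟩ := h i s
  have e1 : G.neighborSet (i, s) =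
      (((Nᶜ.image fun j => (j, s)) ∪ (C.image fun j => (j, !s)) : Finset (Fin n × Bool)) :
        Set (Fin n × Bool)) := by
    ext ⟨j, t⟩
    simp only [mem_neighborSet, coe_union, coe_image, Set.mem_union, Set.mem_image, mem_coe,
      mem_compl, Prod.mk.injEq]
    constructor
    · intro h
      by_cases hst : t = s
      · subst hst
        exact Or.inl ⟨j, (h2 j).1 h, rfl, rfl⟩
      · have : t = !s := by
          cases s <;> cases t <;> simp_all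
        subst this
        exact Or.inr ⟨j, (h3 j).1 h, rfl, rfl⟩
    · rintro (⟨j', h, rfl, rfl⟩ | ⟨j', h, rfl, rfl⟩)
      · exact (h2 _).2 h
      · exact (h3 _).2 h
  have hd : Disjoint (Nᶜ.image fun j => (j, s)) (C.image fun j => (j, !s)) := by
    rw [Finset.disjoint_left]
    rintro ⟨j, t⟩ ha hb
    simp only [mem_image, Prod.mk.injEq] at ha hb
    obtain ⟨_, _, _, rfl⟩ := ha
    obtain ⟨_, _, _, hb⟩ := hb
    cases s <;> simp_all
  have hN : N.card ≤ n := by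
    simpa using card_le_univ N
  rw [e1, Set.ncard_coe_finset, card_union_of_disjoint hd, card_image_of_injective,
    card_image_of_injective, card_compl, Fintype.card_fin]
  · omega
  · exact fun a b h => congrArg Prod.fst h
  · exact fun a b h => congrArg Prod.fst h

theorem pair_of {n : ℕ} (G : SimpleGraph (Fin n × Bool)) (d : ℕ → ℕ → Prop)
    (hsame : ∀ (i j : Fin n) (s : Bool), G.Adj (i, s) (j, s) ↔ (i : ℕ) ≠ j ∧ ¬ (d i j ∨ d j i))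
    (X : Set (Fin n × Bool)) (hd : ∀ i j : Fin n, d i j → ∃ N : Finset (Fin n),
      N.card + X.ncard < n ∧ ∀ z : Fin n, z ∉ N → (z : ℕ) ≠ i ∧ (z : ℕ) ≠ j ∧
        ¬ (d i z ∨ d z i) ∧ ¬ (d j z ∨ d z j)) (s : Bool) (i j : Fin n) (hi : (i, s) ∉ X) (hj : (j, s) ∉ X) :
    RX G X (i, s) (j, s) := by
  have key : ∀ i j : Fin n, d i j → (i, s) ∉ X → (j, s) ∉ X → RX G X (i, s) (j, s) := by
    intro i j hij hi hj
    obtain ⟨N, h1, h2⟩ := hd i j hij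
    have h3 := side_le X s
    refine RX.of_side N (fun z hz => ?_) (by omega) hi hj
    obtain ⟨a1, a2, a3, a4⟩ := h2 z hz
    rw [hsame, hsame]
    exact ⟨⟨a1.symm, a3⟩, ⟨a2, fun h => a4 h.symm⟩⟩
  by_cases hij : i = j
  · subst hij
    exact RX.rfl
  by_cases ha : G.Adj (i, s) (j, s)
  · exact RX.of_adj ha hi hj
  rw [hsame] at ha
  rw [Fin.ext_iff] at hij
  have : d i j ∨ d j i := by tauto
  rcases this with h | h
  · exact key i j h hi hj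
  · exact (key j i h hj hi).symm

theorem tro_same {n : ℕ} (i j : Fin n) (s : Bool) : (tro n).Adj (i, s) (j, s) ↔
    ((i : ℕ) ≠ j ∧ ¬ (fo i j ∨ fo j i)) := by
  rw [tro, fromRel_adj]
  simp only [ne_eq, Prod.mk.injEq, and_true, true_and, not_true_eq_false, false_and, or_false,
    Fin.ext_iff]
  tauto

theorem tro_cross {n : ℕ} (i j : Fin n) (s : Bool) : (tro n).Adj (i, s) (j, !s) ↔
    ((i : ℕ) = j ∧ (i : ℕ) < 3) := by
  rw [tro, fromRel_adj]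
  have h1 : s ≠ !s := by cases s <;> simp
  have h2 : (!s) ≠ s := by cases s <;> simp
  simp only [ne_eq, Prod.mk.injEq, h1, h2, and_false, false_and, false_or, not_false_eq_true,
    true_and, Fin.ext_iff]
  omega

/-- the cross edges of `tre` -/
def xe (i j : ℕ) : Prop := (i = 0 ∧ j = 0) ∨ (i = 1 ∧ j = 2) ∨ (i = 2 ∧ j = 1) ∨ (i = 2 ∧ j = 2)

theorem tre_same {n : ℕ} (i j : Fin n) (s : Bool) : (tre n).Adj (i, s) (j, s) ↔
    ((i : ℕ) ≠ j ∧ ¬ (fe i j ∨ fe j i)) := by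
  rw [tre, fromRel_adj]
  simp only [ne_eq, Prod.mk.injEq, and_true, true_and, not_true_eq_false, false_and, or_false,
    Fin.ext_iff]
  tauto

theorem tre_cross {n : ℕ} (i j : Fin n) (s : Bool) : (tre n).Adj (i, s) (j, !s) ↔ xe i j := by
  rw [tre, fromRel_adj, xe]
  have h1 : s ≠ !s := by cases s <;> simp
  have h2 : (!s) ≠ s := by cases s <;> simp
  simp only [ne_eq, Prod.mk.injEq, h1, h2, and_false, false_and, false_or, not_false_eq_true,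
    true_and]
  omega

/-- vertex number `k` of `Fin n` -/
theorem ex_fin {n : ℕ} (k : ℕ) (h : k < n) : ∃ z : Fin n, (z : ℕ) = k := ⟨⟨k, h⟩, rfl⟩

theorem card_two {n : ℕ} [DecidableEq (Fin n)] {a b : Fin n} (h : (a : ℕ) ≠ b) :
    ({a, b} : Finset (Fin n)).card = 2 := by
  rw [card_insert_of_notMem, card_singleton]
  rw [mem_singleton, Fin.ext_iff]
  exact h

theorem card_three {n : ℕ} [DecidableEq (Fin n)] {a b c : Fin n} (h : (a : ℕ) ≠ b)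
    (h1 : (a : ℕ) ≠ c) (h2 : (b : ℕ) ≠ c) : ({a, b, c} : Finset (Fin n)).card = 3 := by
  rw [card_insert_of_notMem, card_two h2]
  rw [mem_insert, mem_singleton, Fin.ext_iff, Fin.ext_iff]
  tauto

theorem card_four {n : ℕ} [DecidableEq (Fin n)] {a b c d : Fin n} (h : (a : ℕ) ≠ b)
    (h1 : (a : ℕ) ≠ c) (h2 : (a : ℕ) ≠ d) (h3 : (b : ℕ) ≠ c) (h4 : (b : ℕ) ≠ d)
    (h5 : (c : ℕ) ≠ d) : ({a, b, c, d} : Finset (Fin n)).card = 4 := by
  rw [card_insert_of_notMem, card_three h3 h4 h5]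
  rw [mem_insert, mem_insert, mem_singleton, Fin.ext_iff, Fin.ext_iff, Fin.ext_iff]
  tauto

/-- the vertices of the same copy which are not neighbours, one deleted edge -/
theorem mk2 {n : ℕ} {G : SimpleGraph (Fin n × Bool)} {nb : ℕ → ℕ → Prop}
    (hs : ∀ (i j : Fin n) (s : Bool), G.Adj (i, s) (j, s) ↔ ((i : ℕ) ≠ j ∧ ¬ nb i j))
    (i : Fin n) (s : Bool) (a : ℕ) (ha : a < n) (h1 : (i : ℕ) ≠ a)
    (hnb : ∀ j, nb i j ↔ j = a) : ∃ N : Finset (Fin n), N.card = 2 ∧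
      ∀ j, G.Adj (i, s) (j, s) ↔ j ∉ N := by
  classical
  refine ⟨{i, ⟨a, ha⟩}, card_two h1, fun j => ?_⟩
  rw [hs, hnb, mem_insert, mem_singleton, Fin.ext_iff, Fin.ext_iff]
  simp only
  omega

theorem mk3 {n : ℕ} {G : SimpleGraph (Fin n × Bool)} {nb : ℕ → ℕ → Prop}
    (hs : ∀ (i j : Fin n) (s : Bool), G.Adj (i, s) (j, s) ↔ ((i : ℕ) ≠ j ∧ ¬ nb i j))
    (i : Fin n) (s : Bool) (a b : ℕ) (ha : a < n) (hb : b < n) (h1 : (i : ℕ) ≠ a)
    (h2 : (i : ℕ) ≠ b) (h3 : a ≠ b) (hnb : ∀ j, nb i j ↔ (j = a ∨ j = b)) :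
    ∃ N : Finset (Fin n), N.card = 3 ∧ ∀ j, G.Adj (i, s) (j, s) ↔ j ∉ N := by
  classical
  refine ⟨{i, ⟨a, ha⟩, ⟨b, hb⟩}, card_three h1 h2 h3, fun j => ?_⟩
  rw [hs, hnb, mem_insert, mem_insert, mem_singleton, Fin.ext_iff, Fin.ext_iff, Fin.ext_iff]
  simp only
  omega

theorem mk4 {n : ℕ} {G : SimpleGraph (Fin n × Bool)} {nb : ℕ → ℕ → Prop}
    (hs : ∀ (i j : Fin n) (s : Bool), G.Adj (i, s) (j, s) ↔ ((i : ℕ) ≠ j ∧ ¬ nb i j))
    (i : Fin n) (s : Bool) (a b c : ℕ) (ha : a < n) (hb : b < n) (hc : c < n)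
    (h1 : (i : ℕ) ≠ a) (h2 : (i : ℕ) ≠ b) (h3 : (i : ℕ) ≠ c) (h4 : a ≠ b) (h5 : a ≠ c)
    (h6 : b ≠ c) (hnb : ∀ j, nb i j ↔ (j = a ∨ j = b ∨ j = c)) :
    ∃ N : Finset (Fin n), N.card = 4 ∧ ∀ j, G.Adj (i, s) (j, s) ↔ j ∉ N := by
  classical
  refine ⟨{i, ⟨a, ha⟩, ⟨b, hb⟩, ⟨c, hc⟩}, card_four h1 h2 h3 h4 h5 h6, fun j => ?_⟩
  rw [hs, hnb, mem_insert, mem_insert, mem_insert, mem_singleton, Fin.ext_iff, Fin.ext_iff,
    Fin.ext_iff, Fin.ext_iff]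
  simp only
  omega

theorem fo0 (j : ℕ) : fo 0 j ∨ fo j 0 ↔ (j = 2 ∨ j = 3) := by
  rw [fo, fo]
  omega

theorem fo1 (j : ℕ) : fo 1 j ∨ fo j 1 ↔ (j = 4 ∨ j = 5) := by
  rw [fo, fo]
  omega

theorem fo2 (j : ℕ) : fo 2 j ∨ fo j 2 ↔ (j = 0 ∨ j = 6) := by
  rw [fo, fo]
  omega

theorem fo3 (j : ℕ) : fo 3 j ∨ fo j 3 ↔ j = 0 := by
  rw [fo, fo]
  omega

theorem fo4 (j : ℕ) : fo 4 j ∨ fo j 4 ↔ j = 1 := by
  rw [fo, fo]
  omega

theorem fo5 (j : ℕ) : fo 5 j ∨ fo j 5 ↔ j = 1 := by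
  rw [fo, fo]
  omega

theorem fo6 (j : ℕ) : fo 6 j ∨ fo j 6 ↔ j = 2 := by
  rw [fo, fo]
  omega

theorem fo7 (i j : ℕ) (h : 7 ≤ i) (h' : i % 2 = 1) : fo i j ∨ fo j i ↔ j = i + 1 := by
  rw [fo, fo]
  omega

theorem fo8 (i j : ℕ) (h : 7 ≤ i) (h' : i % 2 = 0) : fo i j ∨ fo j i ↔ j = i - 1 := by
  rw [fo, fo]
  omega

theorem fe0 (j : ℕ) : fe 0 j ∨ fe j 0 ↔ (j = 2 ∨ j = 3) := by
  rw [fe, fe]
  omega

theorem fe1 (j : ℕ) : fe 1 j ∨ fe j 1 ↔ (j = 4 ∨ j = 5) := by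
  rw [fe, fe]
  omega

theorem fe2 (j : ℕ) : fe 2 j ∨ fe j 2 ↔ (j = 0 ∨ j = 6 ∨ j = 7) := by
  rw [fe, fe]
  omega

theorem fe3 (j : ℕ) : fe 3 j ∨ fe j 3 ↔ j = 0 := by
  rw [fe, fe]
  omega

theorem fe4 (j : ℕ) : fe 4 j ∨ fe j 4 ↔ j = 1 := by
  rw [fe, fe]
  omega

theorem fe5 (j : ℕ) : fe 5 j ∨ fe j 5 ↔ j = 1 := by
  rw [fe, fe]
  omega

theorem fe6 (j : ℕ) : fe 6 j ∨ fe j 6 ↔ j = 2 := by
  rw [fe, fe]
  omega

theorem fe7 (j : ℕ) : fe 7 j ∨ fe j 7 ↔ j = 2 := by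
  rw [fe, fe]
  omega

theorem fe8 (i j : ℕ) (h : 8 ≤ i) (h' : i % 2 = 0) : fe i j ∨ fe j i ↔ j = i + 1 := by
  rw [fe, fe]
  omega

theorem fe9 (i j : ℕ) (h : 8 ≤ i) (h' : i % 2 = 1) : fe i j ∨ fe j i ↔ j = i - 1 := by
  rw [fe, fe]
  omega

theorem xe0 (j : ℕ) : xe 0 j ↔ j = 0 := by
  rw [xe]
  omega

theorem xe1 (j : ℕ) : xe 1 j ↔ j = 2 := by
  rw [xe]
  omega

theorem xe2 (j : ℕ) : xe 2 j ↔ (j = 1 ∨ j = 2) := by
  rw [xe]
  omega

theorem tro_reg (e : ℕ) : Reg (2 * e + 5) (tro (2 * e + 7)) := by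
  classical
  have h := reg_of' 2 (tro (2 * e + 7)) ?_
  · rwa [show 2 * e + 7 - 2 = 2 * e + 5 by omega] at h
  intro i s
  have hi2 := i.2
  have hs := fun (i j : Fin (2 * e + 7)) (s : Bool) => tro_same i j s
  have key3 : (i : ℕ) < 3 → (∃ N : Finset (Fin (2 * e + 7)), N.card = 3 ∧
      ∀ j, (tro (2 * e + 7)).Adj (i, s) (j, s) ↔ j ∉ N) → ∃ N C : Finset (Fin (2 * e + 7)),
      N.card = C.card + 2 ∧ (∀ j, (tro (2 * e + 7)).Adj (i, s) (j, s) ↔ j ∉ N) ∧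
        (∀ j, (tro (2 * e + 7)).Adj (i, s) (j, !s) ↔ j ∈ C) := by
    rintro h ⟨N, h1, h2⟩
    refine ⟨N, {i}, by rw [h1, card_singleton], h2, fun j => ?_⟩
    rw [tro_cross, mem_singleton, Fin.ext_iff]
    omega
  have key2 : 3 ≤ (i : ℕ) → (∃ N : Finset (Fin (2 * e + 7)), N.card = 2 ∧
      ∀ j, (tro (2 * e + 7)).Adj (i, s) (j, s) ↔ j ∉ N) → ∃ N C : Finset (Fin (2 * e + 7)),
      N.card = C.card + 2 ∧ (∀ j, (tro (2 * e + 7)).Adj (i, s) (j, s) ↔ j ∉ N) ∧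
        (∀ j, (tro (2 * e + 7)).Adj (i, s) (j, !s) ↔ j ∈ C) := by
    rintro h ⟨N, h1, h2⟩
    refine ⟨N, ∅, by rw [h1, card_empty], h2, fun j => ?_⟩
    rw [tro_cross]
    simp only [notMem_empty, iff_false]
    omega
  have hc : (i : ℕ) = 0 ∨ (i : ℕ) = 1 ∨ (i : ℕ) = 2 ∨ (i : ℕ) = 3 ∨ (i : ℕ) = 4 ∨ (i : ℕ) = 5 ∨
      (i : ℕ) = 6 ∨ (7 ≤ (i : ℕ) ∧ (i : ℕ) % 2 = 1) ∨ (7 ≤ (i : ℕ) ∧ (i : ℕ) % 2 = 0) := by omega
  rcases hc with h | h | h | h | h | h | h | h | h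
  · exact key3 (by omega) (mk3 (nb := fun i j => fo i j ∨ fo j i) hs i s 2 3 (by omega)
      (by omega) (by omega) (by omega) (by omega) (by rw [h]; exact fo0))
  · exact key3 (by omega) (mk3 (nb := fun i j => fo i j ∨ fo j i) hs i s 4 5 (by omega)
      (by omega) (by omega) (by omega) (by omega) (by rw [h]; exact fo1))
  · exact key3 (by omega) (mk3 (nb := fun i j => fo i j ∨ fo j i) hs i s 0 6 (by omega)
      (by omega) (by omega) (by omega) (by omega) (by rw [h]; exact fo2))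
  · exact key2 (by omega) (mk2 (nb := fun i j => fo i j ∨ fo j i) hs i s 0 (by omega)
      (by omega) (by rw [h]; exact fo3))
  · exact key2 (by omega) (mk2 (nb := fun i j => fo i j ∨ fo j i) hs i s 1 (by omega)
      (by omega) (by rw [h]; exact fo4))
  · exact key2 (by omega) (mk2 (nb := fun i j => fo i j ∨ fo j i) hs i s 1 (by omega)
      (by omega) (by rw [h]; exact fo5))
  · exact key2 (by omega) (mk2 (nb := fun i j => fo i j ∨ fo j i) hs i s 2 (by omega)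
      (by omega) (by rw [h]; exact fo6))
  · exact key2 (by omega) (mk2 (nb := fun i j => fo i j ∨ fo j i) hs i s (i + 1) (by omega)
      (by omega) (fun j => fo7 i j h.1 h.2))
  · exact key2 (by omega) (mk2 (nb := fun i j => fo i j ∨ fo j i) hs i s (i - 1) (by omega)
      (by omega) (fun j => fo8 i j h.1 h.2))

theorem tre_reg (e : ℕ) : Reg (2 * e + 6) (tre (2 * e + 8)) := by
  classical
  have h := reg_of' 2 (tre (2 * e + 8)) ?_
  · rwa [show 2 * e + 8 - 2 = 2 * e + 6 by omega] at h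
  intro i s
  have hi2 := i.2
  have hs := fun (i j : Fin (2 * e + 8)) (s : Bool) => tre_same i j s
  have key3 : ∀ c : Fin (2 * e + 8), (∀ j : ℕ, xe i j ↔ j = c) →
      (∃ N : Finset (Fin (2 * e + 8)), N.card = 3 ∧
      ∀ j, (tre (2 * e + 8)).Adj (i, s) (j, s) ↔ j ∉ N) → ∃ N C : Finset (Fin (2 * e + 8)),
      N.card = C.card + 2 ∧ (∀ j, (tre (2 * e + 8)).Adj (i, s) (j, s) ↔ j ∉ N) ∧
        (∀ j, (tre (2 * e + 8)).Adj (i, s) (j, !s) ↔ j ∈ C) := by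
    rintro c h ⟨N, h1, h2⟩
    refine ⟨N, {c}, by rw [h1, card_singleton], h2, fun j => ?_⟩
    rw [tre_cross, mem_singleton, Fin.ext_iff, h]
  have key2 : 3 ≤ (i : ℕ) → (∃ N : Finset (Fin (2 * e + 8)), N.card = 2 ∧
      ∀ j, (tre (2 * e + 8)).Adj (i, s) (j, s) ↔ j ∉ N) → ∃ N C : Finset (Fin (2 * e + 8)),
      N.card = C.card + 2 ∧ (∀ j, (tre (2 * e + 8)).Adj (i, s) (j, s) ↔ j ∉ N) ∧
        (∀ j, (tre (2 * e + 8)).Adj (i, s) (j, !s) ↔ j ∈ C) := by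
    rintro h ⟨N, h1, h2⟩
    refine ⟨N, ∅, by rw [h1, card_empty], h2, fun j => ?_⟩
    rw [tre_cross, xe]
    simp only [notMem_empty, iff_false]
    omega
  have hc : (i : ℕ) = 0 ∨ (i : ℕ) = 1 ∨ (i : ℕ) = 2 ∨ (i : ℕ) = 3 ∨ (i : ℕ) = 4 ∨ (i : ℕ) = 5 ∨
      (i : ℕ) = 6 ∨ (i : ℕ) = 7 ∨ (8 ≤ (i : ℕ) ∧ (i : ℕ) % 2 = 0) ∨
      (8 ≤ (i : ℕ) ∧ (i : ℕ) % 2 = 1) := by omega
  rcases hc with h | h | h | h | h | h | h | h | h | h
  · exact key3 ⟨0, by omega⟩ (by rw [h]; exact xe0)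
      (mk3 (nb := fun i j => fe i j ∨ fe j i) hs i s 2 3 (by omega)
      (by omega) (by omega) (by omega) (by omega) (by rw [h]; exact fe0))
  · exact key3 ⟨2, by omega⟩ (by rw [h]; exact xe1)
      (mk3 (nb := fun i j => fe i j ∨ fe j i) hs i s 4 5 (by omega)
      (by omega) (by omega) (by omega) (by omega) (by rw [h]; exact fe1))
  · obtain ⟨N, h1, h2⟩ := mk4 (nb := fun i j => fe i j ∨ fe j i) hs i s 0 6 7 (by omega)
      (by omega) (by omega) (by omega) (by omega) (by omega) (by omega) (by omega) (by omega)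
      (by rw [h]; exact fe2)
    refine ⟨N, {⟨1, by omega⟩, ⟨2, by omega⟩}, ?_, h2, fun j => ?_⟩
    · rw [h1, card_two (by simp)]
    · rw [tre_cross, mem_insert, mem_singleton, Fin.ext_iff, Fin.ext_iff, h]
      exact xe2 j
  · exact key2 (by omega) (mk2 (nb := fun i j => fe i j ∨ fe j i) hs i s 0 (by omega)
      (by omega) (by rw [h]; exact fe3))
  · exact key2 (by omega) (mk2 (nb := fun i j => fe i j ∨ fe j i) hs i s 1 (by omega)
      (by omega) (by rw [h]; exact fe4))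
  · exact key2 (by omega) (mk2 (nb := fun i j => fe i j ∨ fe j i) hs i s 1 (by omega)
      (by omega) (by rw [h]; exact fe5))
  · exact key2 (by omega) (mk2 (nb := fun i j => fe i j ∨ fe j i) hs i s 2 (by omega)
      (by omega) (by rw [h]; exact fe6))
  · exact key2 (by omega) (mk2 (nb := fun i j => fe i j ∨ fe j i) hs i s 2 (by omega)
      (by omega) (by rw [h]; exact fe7))
  · exact key2 (by omega) (mk2 (nb := fun i j => fe i j ∨ fe j i) hs i s (i + 1) (by omega)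
      (by omega) (fun j => fe8 i j h.1 h.2))
  · exact key2 (by omega) (mk2 (nb := fun i j => fe i j ∨ fe j i) hs i s (i - 1) (by omega)
      (by omega) (fun j => fe9 i j h.1 h.2))

end Pool.Agent.Q239.PC
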