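import Pool.Agent.Q239.PC.Two

set_option autoImplicit false

namespace Pool.Agent.Q239.PC

open SimpleGraph Finset

theorem two_adj {k n : ℕ} (a b : Fin n × Bool) : (two k n).Adj a b ↔
    (a.2 = b.2 ∧ (a.1 : ℕ) ≠ b.1 ∧ ¬ cyc k a.1 b.1) ∨
    (a.2 = false ∧ b.2 = true ∧ crs k a.1 b.1) ∨ (b.2 = false ∧ a.2 = true ∧ crs k b.1 a.1) := by
  have hc : ∀ i j, cyc k i j ↔ cyc k j i := by
    intro i j
    simp only [cyc]
    omega
  rw [two, fromRel_adj]
  have e1 : a ≠ b ↔ ¬ ((a.1 : ℕ) = b.1 ∧ a.2 = b.2) := by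
    rw [ne_eq, Prod.ext_iff, Fin.ext_iff]
  rw [e1, hc b.1 a.1]
  constructor
  · rintro ⟨h1, (⟨h2, h3⟩ | h2) | (⟨h2, h3⟩ | h2)⟩
    · exact Or.inl ⟨h2, fun h => h1 ⟨h, h2⟩, h3⟩
    · exact Or.inr (Or.inl h2)
    · exact Or.inl ⟨h2.symm, fun h => h1 ⟨h, h2.symm⟩, h3⟩
    · exact Or.inr (Or.inr h2)
  · rintro (⟨h1, h2, h3⟩ | h1 | h1)
    · exact ⟨fun h => h2 h.1, Or.inl (Or.inl ⟨h1, h3⟩)⟩
    · exact ⟨fun h => by rw [h1.1, h1.2.1] at h; simp at h, Or.inl (Or.inr h1)⟩
    · exact ⟨fun h => by rw [h1.1, h1.2.1] at h; simp at h, Or.inr (Or.inr h1)⟩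

theorem two_same {k n : ℕ} (i j : Fin n) (s : Bool) : (two k n).Adj (i, s) (j, s) ↔
    ((i : ℕ) ≠ j ∧ ¬ cyc k i j) := by
  rw [two_adj]
  cases s <;> simp

theorem two_cross {k n : ℕ} (i j : Fin n) : (two k n).Adj (i, false) (j, true) ↔
    crs k i j := by
  rw [two_adj]
  simp

theorem two_cross' {k n : ℕ} (i j : Fin n) : (two k n).Adj (i, true) (j, false) ↔
    crs k j i := by
  rw [two_adj]
  simp

/-- the cyclic successor -/
def nx (k : ℕ) {n : ℕ} (h : k < n) (i : Fin n) : Fin n :=
  ⟨if (i : ℕ) + 1 < k then i + 1 else 0, by split_ifs <;> omega⟩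

/-- the cyclic predecessor -/
def pv (k : ℕ) {n : ℕ} (h : k < n) (i : Fin n) : Fin n :=
  ⟨if (i : ℕ) = 0 then k - 1 else i - 1, by have := i.2; split_ifs <;> omega⟩

theorem nx_val {k n : ℕ} (h : k < n) (i : Fin n) (hi : (i : ℕ) < k) :
    ((nx k h i : ℕ) = i + 1 ∧ (i : ℕ) + 1 < k) ∨ ((nx k h i : ℕ) = 0 ∧ (i : ℕ) + 1 = k) := by
  unfold nx
  simp only
  split_ifs <;> omega

theorem pv_val {k n : ℕ} (h : k < n) (i : Fin n) (hi : (i : ℕ) < k) :
    ((pv k h i : ℕ) + 1 = i) ∨ ((i : ℕ) = 0 ∧ (pv k h i : ℕ) + 1 = k) := by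
  unfold pv
  simp only
  split_ifs <;> omega

theorem twr : S_TWR := by
  classical
  intro k n hk hkn
  refine reg_of _ fun i s => ?_
  by_cases hi : (i : ℕ) < k
  · have hn := nx_val hkn i hi
    have hp := pv_val hkn i hi
    cases s
    · refine ⟨{i, nx k hkn i, pv k hkn i}, {i, nx k hkn i}, ?_, ?_, ?_⟩
      · rw [card_insert_of_notMem, card_insert_of_notMem, card_singleton, card_insert_of_notMem,
          card_singleton]
        · rw [mem_singleton, Fin.ext_iff]
          omega
        · rw [mem_singleton, Fin.ext_iff]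
          omega
        · rw [mem_insert, mem_singleton, Fin.ext_iff, Fin.ext_iff]
          omega
      · intro j
        rw [two_same, mem_insert, mem_insert, mem_singleton, Fin.ext_iff, Fin.ext_iff, Fin.ext_iff,
          cyc]
        omega
      · intro j
        rw [Bool.not_false, two_cross, mem_insert, mem_singleton, Fin.ext_iff, Fin.ext_iff, crs]
        omega
    · refine ⟨{i, nx k hkn i, pv k hkn i}, {i, pv k hkn i}, ?_, ?_, ?_⟩
      · rw [card_insert_of_notMem, card_insert_of_notMem, card_singleton, card_insert_of_notMem,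
          card_singleton]
        · rw [mem_singleton, Fin.ext_iff]
          omega
        · rw [mem_singleton, Fin.ext_iff]
          omega
        · rw [mem_insert, mem_singleton, Fin.ext_iff, Fin.ext_iff]
          omega
      · intro j
        rw [two_same, mem_insert, mem_insert, mem_singleton, Fin.ext_iff, Fin.ext_iff, Fin.ext_iff,
          cyc]
        omega
      · intro j
        rw [Bool.not_true, two_cross', mem_insert, mem_singleton, Fin.ext_iff, Fin.ext_iff, crs]
        omega
  · refine ⟨{i}, ∅, ?_, ?_, ?_⟩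
    · rw [card_singleton, card_empty]
    · intro j
      rw [two_same, mem_singleton, Fin.ext_iff, cyc]
      omega
    · intro j
      cases s
      · rw [Bool.not_false, two_cross, crs]
        simp only [notMem_empty, iff_false]
        omega
      · rw [Bool.not_true, two_cross', crs]
        simp only [notMem_empty, iff_false]
        omega

/-- two cyclically consecutive vertices of the same copy are joined if few vertices of this copy
are deleted -/
theorem two_step {k n : ℕ} (hk : 5 ≤ k) (hkn : k < n) (X : Set (Fin n × Bool)) (s : Bool)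
    (i : Fin n) (hik : (i : ℕ) < k) (hi : (i, s) ∉ X) (hj : (nx k hkn i, s) ∉ X) :
    RX (two k n) X (i, s) (nx k hkn i, s) ∨ n ≤ (side X s).ncard + 3 := by
  classical
  by_contra hc
  rw [not_or] at hc
  obtain ⟨hc1, hc2⟩ := hc
  apply hc1
  have h1 := nx_val hkn i hik
  have h2 := pv_val hkn i hik
  have hjk : (nx k hkn i : ℕ) < k := by omega
  have h3 := nx_val hkn (nx k hkn i) hjk
  set j := nx k hkn i with hjd
  set p := pv k hkn i with hpd
  set q := nx k hkn j with hqd
  -- some remaining vertex outside i, j, p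
  obtain ⟨z1, hz1, hz1X⟩ := exists_side X s {i, j, p} (by
    have : ({i, j, p} : Finset (Fin n)).card ≤ 3 := card_le_three
    omega)
  obtain ⟨z2, hz2, hz2X⟩ := exists_side X s {i, j, q} (by
    have : ({i, j, q} : Finset (Fin n)).card ≤ 3 := card_le_three
    omega)
  simp only [mem_insert, mem_singleton, not_or, Fin.ext_iff] at hz1 hz2
  by_cases hzq : (z1 : ℕ) = q
  · by_cases hzp : (z2 : ℕ) = p
    · -- path i, q, p, j
      have a1 : (two k n).Adj (i, s) (z1, s) := by
        rw [two_same, cyc]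
        omega
      have a2 : (two k n).Adj (z1, s) (z2, s) := by
        rw [two_same, cyc]
        omega
      have a3 : (two k n).Adj (z2, s) (j, s) := by
        rw [two_same, cyc]
        omega
      exact ((RX.of_adj a1 hi hz1X).trans (RX.of_adj a2 hz1X hz2X)).trans (RX.of_adj a3 hz2X hj)
    · have a1 : (two k n).Adj (i, s) (z2, s) := by
        rw [two_same, cyc]
        omega
      have a2 : (two k n).Adj (z2, s) (j, s) := by
        rw [two_same, cyc]
        omega
      exact (RX.of_adj a1 hi hz2X).trans (RX.of_adj a2 hz2X hj)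
  · have a1 : (two k n).Adj (i, s) (z1, s) := by
      rw [two_same, cyc]
      omega
    have a2 : (two k n).Adj (z1, s) (j, s) := by
      rw [two_same, cyc]
      omega
    exact (RX.of_adj a1 hi hz1X).trans (RX.of_adj a2 hz1X hj)

theorem two_pairs {k n : ℕ} (hk : 5 ≤ k) (hkn : k < n) (X : Set (Fin n × Bool)) (s : Bool)
    (hs : ∀ i : Fin n, (i : ℕ) < k → (i, s) ∉ X → (nx k hkn i, s) ∉ X →
      RX (two k n) X (i, s) (nx k hkn i, s)) (i j : Fin n) (hi : (i, s) ∉ X)
    (hj : (j, s) ∉ X) : RX (two k n) X (i, s) (j, s) := by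
  by_cases hij : i = j
  · subst hij
    exact RX.rfl
  by_cases ha : (two k n).Adj (i, s) (j, s)
  · exact RX.of_adj ha hi hj
  rw [two_same, cyc] at ha
  rw [Fin.ext_iff] at hij
  have hik : (i : ℕ) < k := by omega
  have hjk : (j : ℕ) < k := by omega
  have h1 := nx_val hkn i hik
  have h2 := nx_val hkn j hjk
  have h3 : (nx k hkn i : ℕ) = j ∨ (nx k hkn j : ℕ) = i := by omega
  rcases h3 with h3 | h3
  · have h4 : nx k hkn i = j := Fin.ext h3
    have := hs i hik hi (by rwa [h4])
    rwa [h4] at this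
  · have h4 : nx k hkn j = i := Fin.ext h3
    have := hs j hjk hj (by rwa [h4])
    rw [h4] at this
    exact this.symm

/-- a vertex in the cycle part has a remaining cross neighbour if the other copy loses at most
one vertex -/
theorem two_out {k n : ℕ} (hk : 5 ≤ k) (hkn : k < n) (X : Set (Fin n × Bool)) (s : Bool)
    (hX : (side X (!s)).ncard ≤ 1) (i : Fin n) (hik : (i : ℕ) < k) (hi : (i, s) ∉ X) :
    ∃ c : Fin n, (c, !s) ∉ X ∧ RX (two k n) X (i, s) (c, !s) := by
  have h1 := nx_val hkn i hik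
  have h2 := pv_val hkn i hik
  have key : ∀ c c' : Fin n, c ≠ c' → (c, !s) ∉ X ∨ (c', !s) ∉ X := by
    intro c c' hcc
    by_contra hc
    push Not at hc
    apply hcc
    exact (Set.ncard_le_one (Set.toFinite _)).1 hX c hc.1 c' hc.2
  cases s
  · rw [Bool.not_false] at key ⊢
    rcases key i (nx k hkn i) (by rw [ne_eq, Fin.ext_iff]; omega) with h | h
    · exact ⟨i, h, RX.of_adj (by rw [two_cross, crs]; omega) hi h⟩
    · exact ⟨_, h, RX.of_adj (by rw [two_cross, crs]; omega) hi h⟩
  · rw [Bool.not_true] at key ⊢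
    rcases key i (pv k hkn i) (by rw [ne_eq, Fin.ext_iff]; omega) with h | h
    · exact ⟨i, h, RX.of_adj (by rw [two_cross', crs]; omega) hi h⟩
    · exact ⟨_, h, RX.of_adj (by rw [two_cross', crs]; omega) hi h⟩

theorem twc : S_TWC := by
  intro k n hk hkn
  refine Or.inr ⟨?_, fun X hX => ?_⟩
  · rw [Fintype.card_prod, Fintype.card_fin, Fintype.card_bool]
    omega
  refine conn_two ?_ ?_
  · intro s
    have hsc := side_card X s
    refine two_pairs hk hkn X s ?_
    intro i hik hi hj
    rcases two_step hk hkn X s i hik hi hj with h | h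
    · exact h
    · -- through the other copy
      have hX1 : (side X (!s)).ncard ≤ 1 := by omega
      have hjk : (nx k hkn i : ℕ) < k := by
        have := nx_val hkn i hik
        omega
      obtain ⟨c, hc, hc'⟩ := two_out hk hkn X s hX1 i hik hi
      obtain ⟨c2, hc2, hc2'⟩ := two_out hk hkn X s hX1 _ hjk hj
      refine hc'.trans (RX.trans ?_ hc2'.symm)
      refine two_pairs hk hkn X (!s) ?_ _ _ hc hc2
      intro i' hi'k hi' hj'
      rcases two_step hk hkn X (!s) i' hi'k hi' hj' with h' | h'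
      · exact h'
      · omega
  · obtain ⟨i, h1, h2⟩ := exists_cross (k := k) X (fun i => ⟨i, by omega⟩)
      (fun i => ⟨i, by omega⟩) (fun a b h => by simpa [Fin.ext_iff] using h)
      (fun a b h => by simpa [Fin.ext_iff] using h) hX
    refine ⟨_, _, h1, h2, ?_⟩
    rw [two_cross]
    exact ⟨i.2, i.2, Or.inl rfl⟩

/-- vertex number `i` -/
def vi (n : ℕ) (h : 0 < n) (i : ℕ) : Fin n := ⟨i % n, Nat.mod_lt _ h⟩

theorem vi_val {n i : ℕ} (h : 0 < n) (hi : i < n) : ((vi n h i : Fin n) : ℕ) = i :=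
  Nat.mod_eq_of_lt hi

/-- a separating path in two copies with cross edge at the end -/
theorem sep_two {n l : ℕ} (G : SimpleGraph (Fin n × Bool)) (hn : 0 < n) (x : ℕ → ℕ) (y : ℕ)
    (hx : ∀ i, i < l → x i < n) (hy : y < n) (hl : 2 ≤ l)
    (hinj : ∀ i j, i < l → j < l → x i = x j → i = j)
    (hadj : ∀ i, i + 1 < l → ∀ a b : Fin n, (a : ℕ) = x i → (b : ℕ) = x (i + 1) →
      G.Adj (a, false) (b, false))
    (hlast : ∀ a b : Fin n, (a : ℕ) = x (l - 1) → (b : ℕ) = y → G.Adj (a, false) (b, true))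
    (hsep : ∀ a b : Fin n, G.Adj (a, false) (b, true) → ∃ i, 0 < i ∧ i < l ∧ x i = a) :
    Sep G l := by
  set f : ℕ → Fin n × Bool := fun i => if i < l then (vi n hn (x i), false) else
    (vi n hn y, true) with hf
  have f1 : ∀ i, i < l → f i = (vi n hn (x i), false) := fun i hi => by
    simp only [hf]
    rw [if_pos hi]
  have f2 : f l = (vi n hn y, true) := by
    simp only [hf]
    rw [if_neg (lt_irrefl _)]
  refine ⟨hl, f, {a | a.2 = false}, ?_, ?_, ?_, ?_, ?_⟩
  · intro i j hi hj hij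
    rcases Nat.lt_or_ge i l with h1 | h1 <;> rcases Nat.lt_or_ge j l with h2 | h2
    · rw [f1 i h1, f1 j h2] at hij
      refine hinj i j h1 h2 ?_
      rw [← vi_val hn (hx i h1), ← vi_val hn (hx j h2), (Prod.mk.inj hij).1]
    · obtain rfl : j = l := by omega
      rw [f1 i h1, f2] at hij
      exact absurd (congrArg Prod.snd hij) (by simp)
    · obtain rfl : i = l := by omega
      rw [f1 j h2, f2] at hij
      exact absurd (congrArg Prod.snd hij) (by simp)
    · omega
  · intro i hi
    rcases Nat.lt_or_ge (i + 1) l with h1 | h1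
    · rw [f1 i hi, f1 (i + 1) h1]
      exact hadj i h1 _ _ (vi_val hn (hx i hi)) (vi_val hn (hx _ h1))
    · obtain rfl : i + 1 = l := by omega
      rw [f1 i hi, f2]
      exact hlast _ _ (vi_val hn (hx i hi)) (vi_val hn hy)
  · show (f 0).2 = false
    rw [f1 0 (by omega)]
  · show ¬ (f l).2 = false
    rw [f2]
    simp
  · rintro ⟨a, s⟩ ⟨b, t⟩ ha hb ha' _ hab
    have hs : s = false := ha
    have ht : t = true := by
      have : ¬ t = false := hb
      simpa using this
    subst hs
    subst ht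
    obtain ⟨i, h0, h1, h2⟩ := hsep a b hab
    apply ha' i h0 h1
    rw [f1 i h1]
    refine Prod.ext (Fin.ext ?_) rfl
    rw [vi_val hn (hx i h1), h2]

theorem twp : S_TWP := by
  intro k n hk hkn
  obtain ⟨x, hv⟩ : ∃ x : ℕ → ℕ, ∀ i, (i = 0 ∧ x i = k) ∨ (0 < i ∧ 2 * (i - 1) < k ∧
      x i = 2 * (i - 1)) ∨ (0 < i ∧ k ≤ 2 * (i - 1) ∧ x i = 2 * (i - 1 - (k + 1) / 2) + 1) := by
    refine ⟨fun i => if i = 0 then k else if 2 * (i - 1) < k then 2 * (i - 1) else
      2 * (i - 1 - (k + 1) / 2) + 1, fun i => ?_⟩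
    simp only
    split_ifs <;> omega
  have hvk := hv k
  refine sep_two (l := k + 1) _ (by omega) x (x k) ?_ ?_ (by omega) ?_ ?_ ?_ ?_
  · intro i hi
    have := hv i
    omega
  · omega
  · intro i j hi hj h
    have h1 := hv i
    have h2 := hv j
    omega
  · intro i hi a b ha hb
    rw [two_same, cyc, ha, hb]
    have h1 := hv i
    have h2 := hv (i + 1)
    omega
  · intro a b ha hb
    rw [two_cross, crs, ha, hb, Nat.add_sub_cancel]
    omega
  · intro a b hab
    rw [two_cross, crs] at hab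
    rcases Nat.even_or_odd' (a : ℕ) with ⟨c, hc | hc⟩
    · refine ⟨c + 1, by omega, by omega, ?_⟩
      have := hv (c + 1)
      omega
    · refine ⟨c + (k + 1) / 2 + 1, by omega, by omega, ?_⟩
      have := hv (c + (k + 1) / 2 + 1)
      omega

end Pool.Agent.Q239.PC
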