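import Pool.Agent.Q239.PC.RX

set_option autoImplicit false

/-! Generic facts about graphs on two copies of `Fin n`. -/

namespace Pool.Agent.Q239.PC

open SimpleGraph Finset

theorem reg_of {n : ℕ} (G : SimpleGraph (Fin n × Bool))
    (h : ∀ (i : Fin n) (s : Bool), ∃ N C : Finset (Fin n), N.card = C.card + 1 ∧
      (∀ j, G.Adj (i, s) (j, s) ↔ j ∉ N) ∧ (∀ j, G.Adj (i, s) (j, !s) ↔ j ∈ C)) :
    Reg (n - 1) G := by
  classical
  rintro ⟨i, s⟩
  obtain ⟨N, C, h1, h2, h3⟩ := h i s
  have e1 : G.neighborSet (i, s) =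
      (((Nᶜ.image fun j => (j, s)) ∪ (C.image fun j => (j, !s)) : Finset (Fin n × Bool)) :
        Set (Fin n × Bool)) := by
    ext ⟨j, t⟩
    simp only [mem_neighborSet, coe_union, coe_image, Set.mem_union, Set.mem_image, mem_coe,
      mem_compl, Prod.mk.injEq]
    constructor
    · intro h
      by_cases hst : t = s
      · subst hst
        exact Or.inl ⟨j, (h2 j).1 h, rfl, rfl⟩
      · have : t = !s := by
          cases s <;> cases t <;> simp_all
        subst this
        exact Or.inr ⟨j, (h3 j).1 h, rfl, rfl⟩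
    · rintro (⟨j', h, rfl, rfl⟩ | ⟨j', h, rfl, rfl⟩)
      · exact (h2 _).2 h
      · exact (h3 _).2 h
  have hd : Disjoint (Nᶜ.image fun j => (j, s)) (C.image fun j => (j, !s)) := by
    rw [Finset.disjoint_left]
    rintro ⟨j, t⟩ ha hb
    simp only [mem_image, Prod.mk.injEq] at ha hb
    obtain ⟨_, _, _, rfl⟩ := ha
    obtain ⟨_, _, _, hb⟩ := hb
    cases s <;> simp_all
  have hN : N.card ≤ n := by
    simpa using card_le_univ N
  rw [e1, Set.ncard_coe_finset, card_union_of_disjoint hd, card_image_of_injective,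
    card_image_of_injective, card_compl, Fintype.card_fin]
  · omega
  · exact fun a b h => congrArg Prod.fst h
  · exact fun a b h => congrArg Prod.fst h

/-- the part of `X` in a copy -/
def side {n : ℕ} (X : Set (Fin n × Bool)) (s : Bool) : Set (Fin n) := {i | (i, s) ∈ X}

theorem mem_side {n : ℕ} {X : Set (Fin n × Bool)} {s : Bool} {i : Fin n} :
    i ∈ side X s ↔ (i, s) ∈ X := Iff.rfl

theorem side_card {n : ℕ} (X : Set (Fin n × Bool)) (s : Bool) :
    (side X s).ncard + (side X (!s)).ncard = X.ncard := by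
  have hi : ∀ t : Bool, Function.Injective fun j : Fin n => (j, t) :=
    fun t a b h => congrArg Prod.fst h
  rw [← Set.ncard_image_of_injective (side X s) (hi s),
    ← Set.ncard_image_of_injective (side X (!s)) (hi (!s)), ← Set.ncard_union_eq ?_
      (Set.toFinite _) (Set.toFinite _)]
  · congr 1
    ext ⟨j, t⟩
    simp only [Set.mem_union, Set.mem_image, mem_side, Prod.mk.injEq]
    constructor
    · rintro (⟨_, h, rfl, rfl⟩ | ⟨_, h, rfl, rfl⟩)
      · exact h
      · exact h
    · intro h
      by_cases hst : t = s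
      · subst hst
        exact Or.inl ⟨j, h, rfl, rfl⟩
      · have : t = !s := by
          cases s <;> cases t <;> simp_all
        subst this
        exact Or.inr ⟨j, h, rfl, rfl⟩
  · rw [Set.disjoint_left]
    rintro ⟨j, t⟩ ⟨_, _, ha⟩ ⟨_, _, hb⟩
    simp only [Prod.mk.injEq] at ha hb
    have := ha.2.trans hb.2.symm
    cases s <;> simp at this

theorem side_le {n : ℕ} (X : Set (Fin n × Bool)) (s : Bool) :
    (side X s).ncard ≤ X.ncard := by
  have := side_card X s
  omega

theorem exists_side {n : ℕ} (X : Set (Fin n × Bool)) (s : Bool) (N : Finset (Fin n))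
    (h : (side X s).ncard + N.card < n) : ∃ z, z ∉ N ∧ (z, s) ∉ X := by
  by_contra hc
  push Not at hc
  have h1 : (Set.univ : Set (Fin n)) ⊆ (N : Set (Fin n)) ∪ side X s := by
    intro z _
    by_cases hz : z ∈ N
    · exact Or.inl hz
    · exact Or.inr (hc z hz)
  have h2 := Set.ncard_le_ncard h1 (Set.toFinite _)
  have h3 := Set.ncard_union_le (N : Set (Fin n)) (side X s)
  rw [Set.ncard_univ, Nat.card_eq_fintype_card, Fintype.card_fin] at h2
  rw [Set.ncard_coe_finset] at h3
  omega

theorem RX.of_side {n : ℕ} {G : SimpleGraph (Fin n × Bool)} {X : Set (Fin n × Bool)} {s : Bool}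
    {i j : Fin n} (N : Finset (Fin n))
    (hN : ∀ z, z ∉ N → G.Adj (i, s) (z, s) ∧ G.Adj (z, s) (j, s))
    (h : (side X s).ncard + N.card < n) (hi : (i, s) ∉ X) (hj : (j, s) ∉ X) :
    RX G X (i, s) (j, s) := by
  obtain ⟨z, hz, hzX⟩ := exists_side X s N h
  exact (RX.of_adj (hN z hz).1 hi hzX).trans (RX.of_adj (hN z hz).2 hzX hj)

/-- if both copies minus `X` are joined, and a cross edge survives, the graph is connected -/
theorem conn_two {n : ℕ} {G : SimpleGraph (Fin n × Bool)} {X : Set (Fin n × Bool)}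
    (hs : ∀ (s : Bool) (i j : Fin n), (i, s) ∉ X → (j, s) ∉ X → RX G X (i, s) (j, s))
    (hm : ∃ a b : Fin n, (a, false) ∉ X ∧ (b, true) ∉ X ∧ G.Adj (a, false) (b, true)) :
    (G.induce Xᶜ).Connected := by
  obtain ⟨a, b, ha, hb, hab⟩ := hm
  refine connected_of (a, false) ha ?_
  rintro ⟨j, s⟩ hj
  cases s
  · exact hs _ _ _ ha hj
  · exact (RX.of_adj hab ha hb).trans (hs _ _ _ hb hj)

/-- one of `k` disjoint cross edges survives -/
theorem exists_cross {n k : ℕ} (X : Set (Fin n × Bool)) (a b : Fin k → Fin n)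
    (ha : Function.Injective a) (hb : Function.Injective b) (hX : X.ncard < k) :
    ∃ i, (a i, false) ∉ X ∧ (b i, true) ∉ X := by
  classical
  by_contra hc
  push Not at hc
  set f : Fin k → Fin n × Bool := fun i => if (a i, false) ∈ X then (a i, false) else (b i, true)
    with hf
  have h1 : ∀ i, f i ∈ X := by
    intro i
    simp only [hf]
    split_ifs with h
    · exact h
    · exact hc i h
  have h2 : Function.Injective f := by
    intro i j hij
    simp only [hf] at hij
    split_ifs at hij
    · exact ha (congrArg Prod.fst hij)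
    · exact absurd (congrArg Prod.snd hij) (by simp)
    · exact absurd (congrArg Prod.snd hij) (by simp)
    · exact hb (congrArg Prod.fst hij)
  have h3 : (Set.range f).ncard = k := by
    rw [← Set.image_univ, Set.ncard_image_of_injective _ h2, Set.ncard_univ,
      Nat.card_eq_fintype_card, Fintype.card_fin]
  have h4 : (Set.range f).ncard ≤ X.ncard :=
    Set.ncard_le_ncard (by rintro _ ⟨i, rfl⟩; exact h1 i) (Set.toFinite _)
  omega

end Pool.Agent.Q239.PC
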